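import Pool.Agent.T9h55.RM.LawA

/-! The number of the representations in the random model: upper bound and law (helper55). -/

set_option autoImplicit false

namespace Pool.Agent.T9h55.RM

open Finset MeasureTheory ProbabilityTheory Filter

variable {Ω : Type*} [MeasurableSpace Ω] {μ : Measure Ω}

lemma pi_ge_sqrt : ∀ᶠ n : ℕ in atTop, Real.log n / 2 ≤ Real.log (Nat.primeCounting n) := by
  filter_upwards [log_le_sqrt (ε := 1 / 4) (by norm_num), eventually_ge_atTop 16] with N h1 h2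
  have h2r : (16 : ℝ) ≤ N := by exact_mod_cast h2
  have hl0 : 0 < Real.log N := Real.log_pos (by linarith)
  have hs : Real.sqrt N * Real.sqrt N = N := Real.mul_self_sqrt (by linarith)
  have hs0 : 0 < Real.sqrt N := Real.sqrt_pos.2 (by linarith)
  have h8 : Real.sqrt N ≤ Nat.primeCounting N := by
    refine le_trans ?_ (Chebyshev.pi_ge N)
    rw [le_div_iff₀ hl0]
    have h3 : Real.log ((N : ℝ) + 1) ≤ Real.log N + 1 / N := by
      rw [show (N : ℝ) + 1 = N * (1 + 1 / N) by field_simp, Real.log_mul (by linarith) (by positivity)]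
      have := Real.log_le_sub_one_of_pos (x := 1 + 1 / (N : ℝ)) (by positivity)
      linarith
    have h4 : (1 : ℝ) / N ≤ 1 := by
      rw [div_le_one (by linarith)]
      linarith
    have h5 := Real.log_two_gt_d9
    have h6 : (4 : ℝ) ≤ Real.sqrt N := by
      rw [show (4 : ℝ) = Real.sqrt 16 by rw [show (16 : ℝ) = 4 ^ 2 by norm_num, Real.sqrt_sq (by norm_num)]]
      exact Real.sqrt_le_sqrt h2r
    have h7 : Real.sqrt N * Real.log N ≤ Real.sqrt N * (1 / 4 * Real.sqrt N) := by gcongr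
    nlinarith
  have h9 := Real.log_le_log hs0 h8
  rw [Real.log_sqrt (by linarith)] at h9
  exact h9

lemma pi_tendsto : Tendsto Nat.primeCounting atTop atTop := Nat.tendsto_primeCounting

/-- the sums of the probabilities -/
lemma sums_up {C : ℝ} (hC : 0 < C) : ∀ᶠ n : ℕ in atTop, ∀ f : ℕ → ℝ, (∀ j, 0 ≤ f j) →
    (∀ j, 1 ≤ j → f j ≤ C / Real.log ((j : ℝ) + 2)) →
    ∑ m ∈ s1 n, ∏ j ∈ G3 n m, f j ≤ 24 * (C ^ 3 + C ^ 2) * (n / Real.log n ^ 3) ∧
    ∑ m ∈ s2 n, ∏ j ∈ G3 n m, f j ≤ 24 * (C ^ 3 + C ^ 2) * (n / Real.log n ^ 3) ∧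
    ∑ m ∈ s3 n, ∏ j ∈ G2 n m, f j ≤ 24 * (C ^ 3 + C ^ 2) * (n / Real.log n ^ 3) := by
  filter_upwards [sum_inv_log, pi_tendsto.eventually sum_inv_log, pi_le, pi_ge_sqrt, eventually_ge_atTop 16]
    with n hs1 hs2 hpi hpi2 hn
  intro f hf0 hf
  have hnr : (16 : ℝ) ≤ n := by exact_mod_cast hn
  set L := Real.log n with hL
  have hL0 : 0 < L := Real.log_pos (by linarith)
  -- a single large index
  have hbig : ∀ j : ℕ, n ≤ 2 * j → f j ≤ 2 * C / L := by
    intro j hj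
    refine (hf j (by omega)).trans ?_
    have h5 : 1 ≤ Real.log ((j : ℝ) + 2) := log_ge_one (by omega)
    rw [div_le_div_iff₀ (by linarith) hL0]
    have h6 : (n : ℝ) ≤ ((j : ℝ) + 2) ^ 2 := by
      have : n ≤ (j + 2) ^ 2 := by nlinarith
      exact_mod_cast this
    have h7 := Real.log_le_log (by linarith) h6
    rw [Real.log_pow] at h7
    push_cast at h7
    nlinarith
  have hbig2 : ∀ j : ℕ, n ≤ j → f j ≤ C / L := by
    intro j hj
    refine (hf j (by omega)).trans ?_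
    have h6 : (n : ℝ) ≤ (j : ℝ) + 2 := by
      have : (n : ℝ) ≤ j := by exact_mod_cast hj
      linarith
    exact div_le_div_of_nonneg_left hC.le hL0 (Real.log_le_log (by linarith) h6)
  have hsmall : ∀ j : ℕ, 1 ≤ j → 0 ≤ 1 / Real.log ((j : ℝ) + 2) := by
    intro j hj
    have := log_ge_one hj
    positivity
  have hC3 : 0 < C ^ 3 := by positivity
  have hC2 : 0 < C ^ 2 := by positivity
  have hx : 0 ≤ (n : ℝ) / L ^ 3 := by positivity
  refine ⟨?_, ?_, ?_⟩
  · have hterm : ∀ m ∈ s1 n, ∏ j ∈ G3 n m, f j ≤ 2 * C ^ 3 / L ^ 2 * (1 / Real.log (((n - m : ℕ) : ℝ) + 2)) := by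
      intro m hm
      rw [s1, mem_Ioo] at hm
      have h2 : n ≤ P m := by
        have := le_P (m := m) (by omega)
        omega
      rw [prod3 ⟨by omega, hm.2⟩ h2 (by omega)]
      have e1 := hf (n - m) (by omega)
      have e2 := hbig m (by omega)
      have e3 := hbig2 (P m) h2
      calc f (n - m) * (f m * f (P m)) ≤ (C / Real.log (((n - m : ℕ) : ℝ) + 2)) * (2 * C / L * (C / L)) := by
            have := hf0 (n - m)
            have := hf0 m
            have := hf0 (P m)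
            have := log_ge_one (i := n - m) (by omega)
            gcongr
        _ = _ := by field_simp
    have hre : ∑ m ∈ s1 n, 1 / Real.log (((n - m : ℕ) : ℝ) + 2) ≤ ∑ i ∈ Icc 1 n, 1 / Real.log ((i : ℝ) + 2) := by
      have e : ∑ m ∈ s1 n, 1 / Real.log (((n - m : ℕ) : ℝ) + 2) =
          ∑ i ∈ (s1 n).image (fun m => n - m), 1 / Real.log ((i : ℝ) + 2) := by
        rw [Finset.sum_image]
        intro a ha b hb hab
        have ha' := Finset.mem_coe.1 ha
        have hb' := Finset.mem_coe.1 hb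
        rw [s1, mem_Ioo] at ha' hb'
        simp only at hab
        omega
      rw [e]
      refine Finset.sum_le_sum_of_subset_of_nonneg ?_ fun i hi _ => hsmall i (by rw [mem_Icc] at hi; omega)
      intro i hi
      rw [mem_image] at hi
      obtain ⟨m, hm, rfl⟩ := hi
      rw [s1, mem_Ioo] at hm
      rw [mem_Icc]
      omega
    calc ∑ m ∈ s1 n, ∏ j ∈ G3 n m, f j ≤ ∑ m ∈ s1 n, 2 * C ^ 3 / L ^ 2 * (1 / Real.log (((n - m : ℕ) : ℝ) + 2)) :=
          Finset.sum_le_sum hterm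
      _ = 2 * C ^ 3 / L ^ 2 * ∑ m ∈ s1 n, 1 / Real.log (((n - m : ℕ) : ℝ) + 2) := by rw [Finset.mul_sum]
      _ ≤ 2 * C ^ 3 / L ^ 2 * (3 * (n / L)) := by gcongr; exact hre.trans hs1
      _ = 6 * C ^ 3 * (n / L ^ 3) := by field_simp; ring
      _ ≤ _ := by nlinarith
  · have hterm : ∀ m ∈ s2 n, ∏ j ∈ G3 n m, f j ≤ 2 * C ^ 3 / L ^ 2 * (1 / Real.log ((m : ℝ) + 2)) := by
      intro m hm
      rw [s2, mem_filter, mem_Ioo] at hm
      have h2 : n < P m := lt_P hm.2.1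
      have hm1 : 1 ≤ m := hm.1.1
      rw [prod3 ⟨by omega, hm.1.2⟩ h2.le (by omega)]
      have e1 := hbig (n - m) (by omega)
      have e2 := hf m (by omega)
      have e3 := hbig2 (P m) h2.le
      calc f (n - m) * (f m * f (P m)) ≤ (2 * C / L) * (C / Real.log ((m : ℝ) + 2) * (C / L)) := by
            have := hf0 (n - m)
            have := hf0 m
            have := hf0 (P m)
            have := log_ge_one hm1
            gcongr
        _ = _ := by field_simp
    have hre : ∑ m ∈ s2 n, 1 / Real.log ((m : ℝ) + 2) ≤ ∑ m ∈ Icc 1 n, 1 / Real.log ((m : ℝ) + 2) := by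
      refine Finset.sum_le_sum_of_subset_of_nonneg ?_ fun i hi _ => hsmall i (mem_Icc.1 hi).1
      intro i hi
      rw [s2, mem_filter, mem_Ioo] at hi
      rw [mem_Icc]
      omega
    calc ∑ m ∈ s2 n, ∏ j ∈ G3 n m, f j ≤ ∑ m ∈ s2 n, 2 * C ^ 3 / L ^ 2 * (1 / Real.log ((m : ℝ) + 2)) :=
          Finset.sum_le_sum hterm
      _ = 2 * C ^ 3 / L ^ 2 * ∑ m ∈ s2 n, 1 / Real.log ((m : ℝ) + 2) := by rw [Finset.mul_sum]
      _ ≤ 2 * C ^ 3 / L ^ 2 * ∑ m ∈ Icc 1 n, 1 / Real.log ((m : ℝ) + 2) :=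
          mul_le_mul_of_nonneg_left hre (by positivity)
      _ ≤ 2 * C ^ 3 / L ^ 2 * (3 * (n / L)) := by gcongr
      _ = 6 * C ^ 3 * (n / L ^ 3) := by field_simp; ring
      _ ≤ _ := by nlinarith
  · have hterm : ∀ m ∈ s3 n, ∏ j ∈ G2 n m, f j ≤ 2 * C ^ 2 / L * (1 / Real.log ((m : ℝ) + 2)) := by
      intro m hm
      rw [s3, mem_filter, mem_Ioo] at hm
      have hm1 : 1 ≤ m := hm.1.1
      rw [prod2 (by omega)]
      have e1 := hbig (n - m) (by omega)
      have e2 := hf m (by omega)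
      calc f (n - m) * f m ≤ (2 * C / L) * (C / Real.log ((m : ℝ) + 2)) := by
            have := hf0 (n - m)
            have := hf0 m
            have := log_ge_one hm1
            gcongr
        _ = _ := by field_simp
    have hre : ∑ m ∈ s3 n, 1 / Real.log ((m : ℝ) + 2) ≤ ∑ m ∈ Icc 1 (Nat.primeCounting n), 1 / Real.log ((m : ℝ) + 2) := by
      refine Finset.sum_le_sum_of_subset_of_nonneg ?_ fun i hi _ => hsmall i (mem_Icc.1 hi).1
      intro i hi
      rw [s3, mem_filter, mem_Ioo] at hi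
      rw [mem_Icc]
      omega
    calc ∑ m ∈ s3 n, ∏ j ∈ G2 n m, f j ≤ ∑ m ∈ s3 n, 2 * C ^ 2 / L * (1 / Real.log ((m : ℝ) + 2)) :=
          Finset.sum_le_sum hterm
      _ = 2 * C ^ 2 / L * ∑ m ∈ s3 n, 1 / Real.log ((m : ℝ) + 2) := by rw [Finset.mul_sum]
      _ ≤ 2 * C ^ 2 / L * ∑ m ∈ Icc 1 (Nat.primeCounting n), 1 / Real.log ((m : ℝ) + 2) :=
          mul_le_mul_of_nonneg_left hre (by positivity)
      _ ≤ 2 * C ^ 2 / L * (3 * (Nat.primeCounting n / Real.log (Nat.primeCounting n))) := by gcongr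
      _ ≤ 2 * C ^ 2 / L * (3 * (2 * (n / L) / (L / 2))) := by gcongr
      _ = 24 * C ^ 2 * (n / L ^ 3) := by field_simp; ring
      _ ≤ _ := by nlinarith

lemma up_one [IsProbabilityMeasure μ] {E : ℕ → Set Ω} (hE : ∀ j, MeasurableSet (E j)) (hind : iIndepSet E μ)
    {C : ℝ} (hC : 0 < C) (hup : ∀ j : ℕ, 1 ≤ j → μ.real (E j) ≤ C / Real.log ((j : ℝ) + 2)) :
    ∀ᶠ n : ℕ in atTop, μ.real {ω | 13 * (24 * (C ^ 3 + C ^ 2) * (n / Real.log n ^ 3)) ≤ rep E n ω} ≤
      3 * Real.exp (-(2 * (24 * (C ^ 3 + C ^ 2) * (n / Real.log n ^ 3)))) := by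
  have hK : 0 < 24 * (C ^ 3 + C ^ 2) := by positivity
  have hgrow : ∀ᶠ n : ℕ in atTop, 1 ≤ 24 * (C ^ 3 + C ^ 2) * (n / Real.log n ^ 3) := by
    have h1 : Tendsto (fun x : ℝ => x / Real.log x ^ 3) atTop atTop := by
      have h2 := (Real.isLittleO_pow_log_id_atTop (n := 3)).tendsto_div_nhds_zero
      have h3 : Tendsto (fun x : ℝ => (Real.log x ^ 3 / x)⁻¹) atTop atTop := by
        refine Tendsto.inv_tendsto_nhdsGT_zero ?_
        rw [tendsto_nhdsWithin_iff]
        refine ⟨h2, ?_⟩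
        filter_upwards [eventually_gt_atTop 1] with x hx
        have := Real.log_pos hx
        have : 0 < x := by linarith
        simp only [Set.mem_Ioi]
        positivity
      refine h3.congr fun x => ?_
      rw [inv_div]
    have h4 := ((h1.const_mul_atTop hK).comp tendsto_natCast_atTop_atTop).eventually_ge_atTop 1
    filter_upwards [h4] with n hn
    simpa using hn
  filter_upwards [sums_up hC, hgrow] with n hsums hg
  obtain ⟨u1, u2, u3⟩ := hsums (fun j => μ.real (E j)) (fun j => measureReal_nonneg) hup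
  set v := 24 * (C ^ 3 + C ^ 2) * (n / Real.log n ^ 3) with hv
  have d1 : ((s1 n : Finset ℕ) : Set ℕ).PairwiseDisjoint (G3 n) := by
    refine disj3 (fun m hm => ?_) (fun m hm => ?_) fun m hm m' hm' => ?_
    · rw [s1, mem_Ioo] at hm; omega
    · rw [s1, mem_Ioo] at hm
      have := le_P (m := m) (by omega)
      omega
    · rw [s1, mem_Ioo] at hm hm'; omega
  have d2 : ((s2 n : Finset ℕ) : Set ℕ).PairwiseDisjoint (G3 n) := by
    refine disj3 (fun m hm => ?_) (fun m hm => ?_) fun m hm m' hm' => ?_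
    · rw [s2, mem_filter, mem_Ioo] at hm; omega
    · rw [s2, mem_filter, mem_Ioo] at hm
      exact (lt_P hm.2.1).le
    · rw [s2, mem_filter, mem_Ioo] at hm hm'; omega
  have d3 : ((s3 n : Finset ℕ) : Set ℕ).PairwiseDisjoint (G2 n) := by
    refine disj2 (fun m hm => ?_) fun m hm m' hm' => ?_
    · rw [s3, mem_filter, mem_Ioo] at hm; omega
    · rw [s3, mem_filter, mem_Ioo] at hm hm'; omega
  have w1 := chern_up hE hind (s1 n) (G3 n) d1 u1
  have w2 := chern_up hE hind (s2 n) (G3 n) d2 u2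
  have w3 := chern_up hE hind (s3 n) (G2 n) d3 u3
  have hsub : {ω | 13 * v ≤ (rep E n ω : ℝ)} ⊆ ({ω | 4 * v ≤ (cnt E (G3 n) (s1 n) ω : ℝ)} ∪
      {ω | 4 * v ≤ (cnt E (G3 n) (s2 n) ω : ℝ)}) ∪ {ω | 4 * v ≤ (cnt E (G2 n) (s3 n) ω : ℝ)} := by
    intro ω hω
    simp only [Set.mem_ofPred_eq, Set.mem_union] at hω ⊢
    by_contra hcon
    push Not at hcon
    obtain ⟨⟨x1, x2⟩, x3⟩ := hcon
    have h5 : (rep E n ω : ℝ) ≤ (cnt E (G3 n) (s1 n) ω : ℝ) + (cnt E (G3 n) (s2 n) ω : ℝ) +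
        (cnt E (G2 n) (s3 n) ω : ℝ) + 1 := by exact_mod_cast rep_le E n ω
    linarith
  calc μ.real {ω | 13 * v ≤ (rep E n ω : ℝ)} ≤ _ := measureReal_mono hsub (measure_ne_top μ _)
    _ ≤ _ := measureReal_union_le _ _
    _ ≤ _ := add_le_add_left (measureReal_union_le _ _) _
    _ ≤ Real.exp (-(2 * v)) + Real.exp (-(2 * v)) + Real.exp (-(2 * v)) := by linarith
    _ = 3 * Real.exp (-(2 * v)) := by ring

/-- Borel–Cantelli -/
lemma bc [IsProbabilityMeasure μ] {A : ℕ → Set Ω} {B : ℝ}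
    (h : ∀ᶠ n : ℕ in atTop, μ.real (A n) ≤ B * (1 / (n : ℝ) ^ 2)) : ∀ᵐ ω ∂μ, ∀ᶠ n : ℕ in atTop, ω ∉ A n := by
  obtain ⟨N, hN⟩ := eventually_atTop.1 h
  have h1 : ∀ᵐ ω ∂μ, ∀ᶠ n : ℕ in atTop, ω ∉ A (n + N) := by
    apply ae_eventually_notMem
    have hs : Summable fun n : ℕ => B * (1 / (n : ℝ) ^ 2) :=
      (Real.summable_one_div_nat_pow.2 (by norm_num)).mul_left B
    have hs2 := (summable_nat_add_iff N).2 hs
    have h2 : ∀ n, μ (A (n + N)) ≤ ENNReal.ofReal (B * (1 / ((n + N : ℕ) : ℝ) ^ 2)) := by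
      intro n
      rw [← ENNReal.ofReal_toReal (measure_ne_top μ (A (n + N)))]
      exact ENNReal.ofReal_le_ofReal (hN (n + N) (by omega))
    have h3 : ∀ n : ℕ, 0 ≤ B * (1 / ((n + N : ℕ) : ℝ) ^ 2) := fun n => measureReal_nonneg.trans (hN (n + N) (by omega))
    refine ne_top_of_le_ne_top ?_ (ENNReal.tsum_le_tsum h2)
    rw [← ENNReal.ofReal_tsum_of_nonneg h3 hs2]
    exact ENNReal.ofReal_ne_top
  filter_upwards [h1] with ω hω
  obtain ⟨M, hM⟩ := eventually_atTop.1 hω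
  filter_upwards [eventually_ge_atTop (M + N)] with n hn
  have := hM (n - N) (by omega)
  rwa [show n - N + N = n by omega] at this

lemma exp_small {a : ℝ} (ha : 0 < a) : ∀ᶠ n : ℕ in atTop,
    Real.exp (-(a * (n / Real.log n ^ 3))) ≤ 1 / (n : ℝ) ^ 2 := by
  have h1 : ∀ᶠ x : ℝ in atTop, Real.log x ^ 4 ≤ a / 2 * x := by
    have h2 := (Real.isLittleO_pow_log_id_atTop (n := 4)).bound (c := a / 2) (by positivity)
    filter_upwards [h2, eventually_gt_atTop 1] with x hx hx1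
    simp only [id, Real.norm_eq_abs] at hx
    rw [abs_of_pos (by linarith : (0 : ℝ) < x)] at hx
    exact (le_abs_self _).trans hx
  filter_upwards [h1.natCast_atTop, eventually_ge_atTop 2] with n h2 h3
  have hn : (2 : ℝ) ≤ n := by exact_mod_cast h3
  have hL : 0 < Real.log n := Real.log_pos (by linarith)
  have h4 : 2 * Real.log n ≤ a * (n / Real.log n ^ 3) := by
    rw [mul_div_assoc', le_div_iff₀ (by positivity)]
    nlinarith
  calc Real.exp (-(a * (n / Real.log n ^ 3))) ≤ Real.exp (-(2 * Real.log n)) := Real.exp_le_exp.2 (by linarith)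
    _ = 1 / (n : ℝ) ^ 2 := by
      rw [Real.exp_neg, show 2 * Real.log n = Real.log ((n : ℝ) ^ 2) by rw [Real.log_pow]; push_cast; ring,
        Real.exp_log (by positivity), one_div]

/-- **Law for the number of representations.** -/
theorem law_rep [IsProbabilityMeasure μ] {E : ℕ → Set Ω} (hE : ∀ j, MeasurableSet (E j)) (hind : iIndepSet E μ)
    {c C : ℝ} (hc : 0 < c) (hC : 0 < C) (hlo : ∀ᶠ j : ℕ in atTop, c / Real.log ((j : ℝ) + 2) ≤ μ.real (E j))
    (hup : ∀ j : ℕ, 1 ≤ j → μ.real (E j) ≤ C / Real.log ((j : ℝ) + 2)) :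
    ∀ᵐ ω ∂μ, ∀ᶠ n : ℕ in atTop, c ^ 3 / 64 * (n / Real.log n ^ 3) ≤ rep E n ω ∧
      (rep E n ω : ℝ) ≤ 13 * (24 * (C ^ 3 + C ^ 2) * (n / Real.log n ^ 3)) := by
  have h1 := bc (μ := μ) (A := fun n => {ω | (rep E n ω : ℝ) ≤ c ^ 3 / 64 * (n / Real.log n ^ 3)}) (B := 1) (by
    filter_upwards [low_one hE hind hc hlo, exp_small (a := c ^ 3 / 48) (by positivity)] with n h2 h3
    rw [one_mul]
    exact h2.trans h3)
  have h2 := bc (μ := μ) (A := fun n => {ω | 13 * (24 * (C ^ 3 + C ^ 2) * (n / Real.log n ^ 3)) ≤ rep E n ω}) (B := 3) (by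
    filter_upwards [up_one hE hind hC hup, exp_small (a := 2 * (24 * (C ^ 3 + C ^ 2))) (by positivity)] with n h2 h3
    refine h2.trans ?_
    rw [show 2 * (24 * (C ^ 3 + C ^ 2) * ((n : ℝ) / Real.log n ^ 3)) = 2 * (24 * (C ^ 3 + C ^ 2)) * (n / Real.log n ^ 3) by ring]
    linarith)
  filter_upwards [h1, h2] with ω a1 a2
  filter_upwards [a1, a2] with n b1 b2
  simp only [not_le] at b1 b2
  exact ⟨b1.le, b2.le⟩

end Pool.Agent.T9h55.RM
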