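import Pool.Agent.T9h55.RM.LeastC

/-! Integers without a representation with small `m` in the random model: law (helper55). -/

set_option autoImplicit false

namespace Pool.Agent.T9h55.RM

open Finset MeasureTheory ProbabilityTheory Filter

variable {Ω : Type*} [MeasurableSpace Ω] {μ : Measure Ω}

/-- `(log n)^2 (log log n)^2` -/
noncomputable def thr (n : ℕ) : ℝ := Real.log n ^ 2 * Real.log (Real.log n) ^ 2

lemma logn_tendsto : Tendsto (fun n : ℕ => Real.log n) atTop atTop :=
  Real.tendsto_log_atTop.comp tendsto_natCast_atTop_atTop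

/-- the threshold is small -/
lemma thr_small {c : ℝ} (hc : 0 < c) : ∀ᶠ N : ℕ in atTop, c * thr N + 1 ≤ Real.sqrt N / 2 := by
  have h1 : ∀ᶠ x : ℝ in atTop, Real.log x ^ 4 ≤ 1 / (4 * c) * Real.sqrt x := by
    have h2 := (isLittleO_log_rpow_atTop (show (0 : ℝ) < 1 / 8 by norm_num)).pow (n := 4) (by norm_num)
    have h3 := h2.bound (c := 1 / (4 * c)) (by positivity)
    filter_upwards [h3, eventually_ge_atTop 1] with x hx hx1
    rw [Real.norm_eq_abs, Real.norm_eq_abs, abs_of_nonneg (by positivity : (0 : ℝ) ≤ (x ^ (1 / 8 : ℝ)) ^ 4)] at hx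
    have h4 : (x ^ (1 / 8 : ℝ)) ^ 4 = Real.sqrt x := by
      rw [← Real.rpow_natCast, ← Real.rpow_mul (by linarith), Real.sqrt_eq_rpow]
      norm_num
    rw [h4] at hx
    exact (le_abs_self _).trans hx
  have h5 : ∀ᶠ x : ℝ in atTop, Real.log x ≤ x := by
    filter_upwards [eventually_ge_atTop 1] with x hx
    have := Real.log_le_sub_one_of_pos (x := x) (by linarith)
    linarith
  filter_upwards [h1.natCast_atTop, logn_tendsto.eventually h5, loglog_tendsto.eventually_ge_atTop 0,
    eventually_ge_atTop 16] with N a1 a2 a3 a4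
  have hNr : (16 : ℝ) ≤ N := by exact_mod_cast a4
  have hs : (4 : ℝ) ≤ Real.sqrt N := by
    rw [show (4 : ℝ) = Real.sqrt 16 by rw [show (16 : ℝ) = 4 ^ 2 by norm_num, Real.sqrt_sq (by norm_num)]]
    exact Real.sqrt_le_sqrt hNr
  have h6 : thr N ≤ Real.log N ^ 4 := by
    unfold thr
    have h7 : Real.log (Real.log N) ^ 2 ≤ Real.log N ^ 2 := pow_le_pow_left₀ a3 a2 2
    have h8 : 0 ≤ Real.log N ^ 2 := sq_nonneg _
    nlinarith
  have h9 : c * thr N ≤ Real.sqrt N / 4 := by
    calc c * thr N ≤ c * (1 / (4 * c) * Real.sqrt N) := mul_le_mul_of_nonneg_left (h6.trans a1) hc.le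
      _ = Real.sqrt N / 4 := by field_simp
  linarith

lemma thr_large {c : ℝ} (hc : 0 < c) (R : ℝ) : ∀ᶠ N : ℕ in atTop, R + Real.log N ≤ c * thr N := by
  filter_upwards [logn_tendsto.eventually_ge_atTop (2 / c + |R| / c + 1), loglog_tendsto.eventually_ge_atTop 1] with N a1 a2
  unfold thr
  set L := Real.log N with hL
  have h0 : 0 ≤ |R| / c := by positivity
  have h0' : 0 < 2 / c := by positivity
  have hL1 : 1 ≤ L := by linarith
  have e4 : 1 ≤ Real.log L ^ 2 := by nlinarith
  have e1 : 2 + |R| ≤ c * L := by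
    have := mul_le_mul_of_nonneg_left a1 hc.le
    rw [mul_add, mul_add, mul_div_cancel₀ _ hc.ne', mul_div_cancel₀ _ hc.ne'] at this
    linarith
  have e2 : R ≤ |R| := le_abs_self R
  have e3 : c * L * L ≤ c * (L ^ 2 * Real.log L ^ 2) := by
    have : c * L * L = c * L ^ 2 := by ring
    rw [this]
    have h3 : L ^ 2 ≤ L ^ 2 * Real.log L ^ 2 := by nlinarith [sq_nonneg L]
    exact mul_le_mul_of_nonneg_left h3 hc.le
  have e5 : (2 + |R|) * L ≤ c * L * L := mul_le_mul_of_nonneg_right e1 (by linarith)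
  have e6 : R + L ≤ (2 + |R|) * L := by
    have := abs_nonneg R
    nlinarith
  linarith

/-- **Gaps.** For almost all `ω` each interval `(N, 2 N]` contains an `n` without a representation with small `m`. -/
theorem law_gap [IsProbabilityMeasure μ] {E : ℕ → Set Ω} (hE : ∀ j, MeasurableSet (E j)) (hind : iIndepSet E μ)
    {C : ℝ} (hC : 0 < C) (hup : ∀ j : ℕ, 1 ≤ j → μ.real (E j) ≤ C / Real.log ((j : ℝ) + 2)) :
    ∀ᵐ ω ∂μ, ∀ᶠ N : ℕ in atTop, ∃ n : ℕ, N < n ∧ n ≤ 2 * N ∧
      ∀ m : ℕ, 1 ≤ m → (m : ℝ) ≤ 1 / (768 * C * (C ^ 2 + C)) / 16 * thr n →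
        ¬ (ω ∈ E (n - m) ∧ ω ∈ E m ∧ ω ∈ E (P m)) := by
  classical
  set c₂ := 1 / (768 * C * (C ^ 2 + C)) with hc₂
  have hc₂0 : 0 < c₂ := by positivity
  obtain ⟨M₁, hM₁⟩ := BB_card hE hind hC hup
  obtain ⟨m₀, hm₀⟩ := eventually_atTop.1 P_le_sq
  set Mf : ℕ → ℕ := fun N => ⌊c₂ * thr N⌋₊ with hMf
  set I : ℕ → ℕ := fun N => Nat.sqrt N with hI
  set ν : ℕ → ℕ → ℕ := fun N i => N + (i + 1) * (Mf N + 1) with hν
  set Q : ℕ → ℝ := fun N => 8 * (12 * (C ^ 2 + C) * ((Mf N : ℝ) / Real.log (Mf N) ^ 2)) with hQ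
  have hae := bc (μ := μ) (A := fun N => {ω | Q N ≤ (#(BB E (Mf N) ω) : ℝ)} ∪
      {ω | (#(BB E (Mf N) ω) : ℝ) < Q N ∧ ω ∈ WW E (ν N) (range (I N)) (BB E (Mf N) ω)}) (B := 3) (by
    have hbig : ∀ᶠ N : ℕ in atTop, Real.log N * 2 ≤ 24 * (C ^ 2 + C) * (c₂ / 2 / 9 * Real.log N ^ 2) := by
      have hk : 0 < 24 * (C ^ 2 + C) * (c₂ / 2 / 9) := by positivity
      filter_upwards [logn_tendsto.eventually_ge_atTop (2 / (24 * (C ^ 2 + C) * (c₂ / 2 / 9))),
        logn_tendsto.eventually_ge_atTop 0] with N h1 h2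
      rw [div_le_iff₀ hk] at h1
      nlinarith
    have hexp : ∀ᶠ N : ℕ in atTop, 2 * Real.log N ≤ 1 / 2 * Real.exp (Real.log N / 4) / 3 := by
      have h1 : Tendsto (fun x : ℝ => Real.exp (x / 4) / x ^ 1) atTop atTop := by
        have h2 := (Real.tendsto_exp_div_pow_atTop 1).comp (tendsto_id.atTop_div_const (show (0 : ℝ) < 4 by norm_num))
        have h3 : Tendsto (fun x : ℝ => (1 / 4) * (Real.exp (x / 4) / (x / 4) ^ 1)) atTop atTop :=
          h2.const_mul_atTop (by norm_num)
        refine h3.congr' ?_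
        filter_upwards [eventually_gt_atTop 0] with x hx
        field_simp
      filter_upwards [logn_tendsto.eventually (h1.eventually_ge_atTop 12), logn_tendsto.eventually_ge_atTop 1] with N h2 h3
      rw [pow_one, le_div_iff₀ (by linarith)] at h2
      linarith
    filter_upwards [thr_small hc₂0, thr_large hc₂0 (M₁ + m₀ + 3), size_M (A := c₂ / 2) (by positivity), hbig, hexp,
      logn_tendsto.eventually_ge_atTop (2 * C + 1), loglog_tendsto.eventually_ge_atTop 1, eventually_ge_atTop 16]
      with N b1 b2 b3 b4 b5 b6 b7 b8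
    set L := Real.log N with hL
    set l := Real.log L with hl
    set M := Mf N with hM
    have hNr : (16 : ℝ) ≤ N := by exact_mod_cast b8
    have hL0 : 0 < L := Real.log_pos (by linarith)
    have hthr0 : 0 ≤ c₂ * thr N := by unfold thr; positivity
    have hMle : (M : ℝ) ≤ c₂ * thr N := Nat.floor_le hthr0
    have hMge : c₂ * thr N < M + 1 := Nat.lt_floor_add_one _
    have hMbig : (M₁ : ℝ) + m₀ + 2 + L ≤ M := by linarith
    have hM1 : M₁ + m₀ + 2 ≤ M := by
      have : ((M₁ + m₀ + 2 : ℕ) : ℝ) ≤ M := by push_cast; linarith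
      exact_mod_cast this
    have hMr : (2 : ℝ) ≤ M := by
      have : 2 ≤ M := by omega
      exact_mod_cast this
    have hK : l ≤ Real.log M := by
      rw [hl]
      exact Real.log_le_log hL0 (by have : (0 : ℝ) ≤ M₁ := Nat.cast_nonneg _; have : (0 : ℝ) ≤ m₀ := Nat.cast_nonneg _; linarith)
    have hK0 : 0 < Real.log M := by linarith
    -- upper and lower bound for `M / log ^ 2 M`
    have hMK : (M : ℝ) / Real.log M ^ 2 ≤ c₂ * L ^ 2 := by
      rw [div_le_iff₀ (by positivity)]
      calc (M : ℝ) ≤ c₂ * thr N := hMle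
        _ = c₂ * L ^ 2 * l ^ 2 := by unfold thr; ring
        _ ≤ c₂ * L ^ 2 * Real.log M ^ 2 := by
            have : l ^ 2 ≤ Real.log M ^ 2 := pow_le_pow_left₀ (by linarith) hK 2
            gcongr
    have hMK2 : c₂ / 2 / 9 * L ^ 2 ≤ (M : ℝ) / Real.log M ^ 2 := by
      refine b3 M ?_
      have h1 : c₂ / 2 * (L ^ 2 * l ^ 2) = c₂ * thr N / 2 := by unfold thr; ring
      rw [h1]
      linarith
    -- the first event
    have e1 := hM₁ M (by omega)
    have e1' : Real.exp (-(2 * (12 * (C ^ 2 + C) * ((M : ℝ) / Real.log M ^ 2)))) ≤ 1 / (N : ℝ) ^ 2 := by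
      have h3 : 2 * L ≤ 2 * (12 * (C ^ 2 + C) * ((M : ℝ) / Real.log M ^ 2)) := by
        have h4 : 24 * (C ^ 2 + C) * (c₂ / 2 / 9 * L ^ 2) ≤ 24 * (C ^ 2 + C) * ((M : ℝ) / Real.log M ^ 2) :=
          mul_le_mul_of_nonneg_left hMK2 (by positivity)
        linarith
      calc _ ≤ Real.exp (-(2 * L)) := Real.exp_le_exp.2 (by linarith)
        _ = 1 / (N : ℝ) ^ 2 := by
          rw [Real.exp_neg, show 2 * L = Real.log ((N : ℝ) ^ 2) by rw [Real.log_pow]; push_cast; ring,
            Real.exp_log (by positivity), one_div]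
    -- the second event
    have hMN : ((M : ℝ) + 1) ≤ Real.sqrt N / 2 := by linarith
    have hsq : Real.sqrt N * Real.sqrt N = N := Real.mul_self_sqrt (by linarith)
    have hMM : M * M ≤ N := by
      have : (M : ℝ) * M ≤ N := by
        have h1 : (M : ℝ) ≤ Real.sqrt N := by linarith
        calc (M : ℝ) * M ≤ Real.sqrt N * Real.sqrt N := by gcongr
          _ = N := hsq
      exact_mod_cast this
    have hP : ∀ m, 1 ≤ m → m ≤ M → m ≤ N ∧ P m ≤ N := by
      intro m h1 h2
      have h3 : M ≤ M * M := Nat.le_mul_self M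
      refine ⟨by omega, ?_⟩
      have h4 : P m ≤ P M := by
        rcases Nat.lt_or_ge m M with h | h
        · exact (P_lt h1 h).le
        · have : m = M := by omega
          rw [this]
      have h5 := hm₀ M (by omega)
      rw [pow_two] at h5
      omega
    have hIge : Real.sqrt N / 2 ≤ (I N : ℝ) := by
      have h1 : Real.sqrt N < (Nat.sqrt N : ℝ) + 1 := by
        have := Nat.lt_succ_sqrt N
        have h2 : (N : ℝ) < ((Nat.sqrt N : ℝ) + 1) ^ 2 := by
          have h3 : N < (Nat.sqrt N + 1) ^ 2 := by rw [pow_two]; exact this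
          exact_mod_cast h3
        rw [← Real.sqrt_sq (show (0 : ℝ) ≤ (Nat.sqrt N : ℝ) + 1 by positivity)]
        exact Real.sqrt_lt_sqrt (by linarith) h2
      have h4 : (4 : ℝ) ≤ Real.sqrt N := by
        rw [show (4 : ℝ) = Real.sqrt 16 by rw [show (16 : ℝ) = 4 ^ 2 by norm_num, Real.sqrt_sq (by norm_num)]]
        exact Real.sqrt_le_sqrt hNr
      simp only [hI]
      linarith
    have hlogN : Real.exp (L / 4) = Real.sqrt N * Real.exp (-(L / 4)) := by
      have h1 : Real.sqrt N = Real.exp (L / 2) := by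
        rw [Real.sqrt_eq_rpow, Real.rpow_def_of_pos (by linarith)]
        congr 1
        ring
      rw [h1, ← Real.exp_add]
      congr 1
      ring
    have e2 := all_hit (μ := μ) hE hind (N := N) (M := M) hP (range (I N)) (ν N)
      (fun i _ => by
        simp only [hν]
        have : Mf N + 1 ≤ (i + 1) * (Mf N + 1) := Nat.le_mul_of_pos_left _ (by omega)
        omega)
      (fun i _ i' _ hii => by
        simp only [hν]
        have : (i + 1) * (Mf N + 1) + (Mf N + 1) ≤ (i' + 1) * (Mf N + 1) := by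
          have h1 : (i + 1) * (Mf N + 1) + (Mf N + 1) = (i + 1 + 1) * (Mf N + 1) := by ring
          rw [h1]
          exact Nat.mul_le_mul_right _ (by omega)
        omega)
      (Q := Q N) (v := 1 / 2 * Real.exp (L / 4)) (by positivity) (by
        intro b hb hbQ
        have hfac : ∀ i ∈ range (I N), Real.exp (-(L / 4)) ≤ ∏ m ∈ b, (1 - μ.real (E (ν N i - m))) := by
          intro i _
          have hone : ∀ m ∈ b, Real.exp (-(2 * C / L)) ≤ 1 - μ.real (E (ν N i - m)) := by
            intro m hm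
            have hm' := mem_Ioc.1 (hb hm)
            have h1 : Mf N + 1 ≤ (i + 1) * (Mf N + 1) := Nat.le_mul_of_pos_left _ (by omega)
            have h2 : N ≤ ν N i - m := by
              simp only [hν]
              omega
            have h3 := hup (ν N i - m) (by omega)
            have h4 : C / Real.log (((ν N i - m : ℕ) : ℝ) + 2) ≤ C / L := by
              refine div_le_div_of_nonneg_left hC.le hL0 (Real.log_le_log (by linarith) ?_)
              have : (N : ℝ) ≤ ((ν N i - m : ℕ) : ℝ) := by exact_mod_cast h2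
              linarith
            have h5 : C / L ≤ 1 / 2 := by
              rw [div_le_div_iff₀ hL0 (by norm_num)]
              linarith
            have h6 : 0 < C / L := by positivity
            -- `exp (-2x) ≤ 1 - x` for `0 ≤ x ≤ 1/2`
            have h7 : Real.exp (-(2 * (C / L))) ≤ 1 - C / L := by
              set x := C / L with hx
              have h8 : Real.exp (-(2 * x)) * Real.exp (2 * x) = 1 := by rw [← Real.exp_add]; simp
              have h9 : 1 + 2 * x ≤ Real.exp (2 * x) := by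
                have := Real.add_one_le_exp (2 * x)
                linarith
              have h10 : 1 ≤ (1 - x) * Real.exp (2 * x) := by nlinarith
              have h11 := Real.exp_pos (2 * x)
              have h12 : Real.exp (-(2 * x)) * Real.exp (2 * x) ≤ (1 - x) * Real.exp (2 * x) := by rw [h8]; exact h10
              exact le_of_mul_le_mul_right h12 h11
            have h13 : 2 * C / L = 2 * (C / L) := by ring
            rw [h13]
            linarith
          calc Real.exp (-(L / 4)) ≤ Real.exp (-(2 * C / L)) ^ #b := by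
                rw [← Real.exp_nat_mul]
                apply Real.exp_le_exp.2
                have hb2 : (#b : ℝ) ≤ 96 * (C ^ 2 + C) * (c₂ * L ^ 2) := by
                  refine hbQ.le.trans ?_
                  simp only [hQ]
                  rw [← hM]
                  have : 8 * (12 * (C ^ 2 + C) * ((M : ℝ) / Real.log M ^ 2)) = 96 * (C ^ 2 + C) * ((M : ℝ) / Real.log M ^ 2) := by ring
                  rw [this]
                  exact mul_le_mul_of_nonneg_left hMK (by positivity)
                have h1 : (#b : ℝ) * (2 * C / L) ≤ 96 * (C ^ 2 + C) * (c₂ * L ^ 2) * (2 * C / L) :=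
                  mul_le_mul_of_nonneg_right hb2 (by positivity)
                have h2 : 96 * (C ^ 2 + C) * (c₂ * L ^ 2) * (2 * C / L) = L / 4 := by
                  rw [hc₂]
                  field_simp
                  norm_num
                nlinarith
            _ = ∏ m ∈ b, Real.exp (-(2 * C / L)) := by rw [Finset.prod_const]
            _ ≤ _ := Finset.prod_le_prod (fun _ _ => (Real.exp_pos _).le) hone
        calc 1 / 2 * Real.exp (L / 4) = Real.sqrt N / 2 * Real.exp (-(L / 4)) := by rw [hlogN]; ring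
          _ ≤ (I N : ℝ) * Real.exp (-(L / 4)) := mul_le_mul_of_nonneg_right hIge (Real.exp_pos _).le
          _ = ∑ i ∈ range (I N), Real.exp (-(L / 4)) := by rw [Finset.sum_const, card_range, nsmul_eq_mul]
          _ ≤ _ := Finset.sum_le_sum hfac)
    have e2' : Real.exp (-(1 / 2 * Real.exp (L / 4) / 3)) ≤ 1 / (N : ℝ) ^ 2 := by
      calc _ ≤ Real.exp (-(2 * L)) := Real.exp_le_exp.2 (by linarith)
        _ = 1 / (N : ℝ) ^ 2 := by
          rw [Real.exp_neg, show 2 * L = Real.log ((N : ℝ) ^ 2) by rw [Real.log_pow]; push_cast; ring,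
            Real.exp_log (by positivity), one_div]
    refine (measureReal_union_le _ _).trans ?_
    have e3 : μ.real {ω | Q N ≤ (#(BB E (Mf N) ω) : ℝ)} ≤ 2 * (1 / (N : ℝ) ^ 2) := by
      refine (e1.trans ?_)
      linarith
    have e4 := e2.trans e2'
    linarith)
  filter_upwards [hae] with ω hω
  filter_upwards [hω, thr_small hc₂0, loglog_tendsto.eventually_ge_atTop 1, eventually_ge_atTop 16] with N hN b1 b7 b8
  simp only [Set.mem_union, Set.mem_ofPred_eq, not_or, not_le, not_and] at hN
  obtain ⟨h1, h2⟩ := hN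
  have h3 := h2 h1
  unfold WW at h3
  simp only [Set.mem_iInter, Set.mem_iUnion, not_forall, not_exists] at h3
  obtain ⟨i, hi, h4⟩ := h3
  rw [mem_range] at hi
  have hNr : (16 : ℝ) ≤ N := by exact_mod_cast b8
  set L := Real.log N with hL
  have hL0 : 0 < L := Real.log_pos (by linarith)
  have hthr0 : 0 ≤ c₂ * thr N := by unfold thr; positivity
  have hMle : (Mf N : ℝ) ≤ c₂ * thr N := Nat.floor_le hthr0
  have hn1 : N < ν N i := by
    simp only [hν]
    have : 0 < (i + 1) * (Mf N + 1) := by positivity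
    omega
  have hn2 : ν N i ≤ 2 * N := by
    have h5 : (i + 1) * (Mf N + 1) ≤ N := by
      have hsq : Real.sqrt N * Real.sqrt N = N := Real.mul_self_sqrt (by linarith)
      have h6 : ((i : ℝ) + 1) ≤ Real.sqrt N := by
        have h7 : ((i + 1 : ℕ) : ℝ) ≤ (Nat.sqrt N : ℝ) := by exact_mod_cast hi
        have h8 : (Nat.sqrt N : ℝ) ≤ Real.sqrt N := Real.nat_sqrt_le_real_sqrt
        push_cast at h7
        linarith
      have h9 : ((i : ℝ) + 1) * ((Mf N : ℝ) + 1) ≤ N := by
        calc ((i : ℝ) + 1) * ((Mf N : ℝ) + 1) ≤ Real.sqrt N * Real.sqrt N := by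
              have : (Mf N : ℝ) + 1 ≤ Real.sqrt N := by
                have := Real.sqrt_nonneg (N : ℝ)
                linarith
              gcongr
          _ = N := hsq
      exact_mod_cast h9
    simp only [hν]
    omega
  refine ⟨ν N i, hn1, hn2, fun m hm1 hm2 hcon => ?_⟩
  have hmM : m ≤ Mf N := by
    apply Nat.le_floor
    refine hm2.trans ?_
    have hnr : (N : ℝ) ≤ ν N i := by exact_mod_cast hn1.le
    have hnr2 : (ν N i : ℝ) ≤ 2 * N := by exact_mod_cast hn2
    have hl1 : Real.log (ν N i) ≤ 2 * L := by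
      have h5 := Real.log_le_log (by linarith) hnr2
      rw [Real.log_mul (by norm_num) (by linarith)] at h5
      have h6 : Real.log 2 ≤ L := Real.log_le_log (by norm_num) (by linarith)
      linarith
    have hl0 : L ≤ Real.log (ν N i) := Real.log_le_log (by linarith) hnr
    have hl2 : Real.log (Real.log (ν N i)) ≤ 2 * Real.log L := by
      have h5 := Real.log_le_log (by linarith) hl1
      rw [Real.log_mul (by norm_num) (by linarith)] at h5
      have h6 : Real.log 2 ≤ 1 := by
        have := Real.log_two_lt_d9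
        linarith
      linarith
    have hl3 : 0 ≤ Real.log (Real.log (ν N i)) := by
      have := Real.log_le_log hL0 hl0
      linarith
    have h7 : thr (ν N i) ≤ 16 * thr N := by
      unfold thr
      have h8 : Real.log (ν N i) ^ 2 ≤ (2 * L) ^ 2 := pow_le_pow_left₀ (by linarith) hl1 2
      have h9 : Real.log (Real.log (ν N i)) ^ 2 ≤ (2 * Real.log L) ^ 2 := pow_le_pow_left₀ hl3 hl2 2
      calc Real.log (ν N i) ^ 2 * Real.log (Real.log (ν N i)) ^ 2 ≤ (2 * L) ^ 2 * (2 * Real.log L) ^ 2 := by gcongr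
        _ = 16 * (L ^ 2 * Real.log L ^ 2) := by ring
    calc c₂ / 16 * thr (ν N i) ≤ c₂ / 16 * (16 * thr N) := mul_le_mul_of_nonneg_left h7 (by positivity)
      _ = c₂ * thr N := by ring
  have hmB : m ∈ BB E (Mf N) ω := by
    rw [BB, mem_filter, mem_Ioc]
    exact ⟨⟨by omega, hmM⟩, hcon.2⟩
  exact h4 m hmB hcon.1

end Pool.Agent.T9h55.RM
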