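import Pool.Agent.T9h55.RM.In
import Pool.Agent.T9h55.RM.LeastD

/-! The random model: existence, laws for primes (helper55). -/

set_option autoImplicit false

namespace Pool.Agent.T9h55.RM

open Finset MeasureTheory ProbabilityTheory Filter

/-- independent variables uniform on `0, …, H j - 1` exist -/
theorem exists_unif (H : ℕ → ℕ) (hH : ∀ j, 1 ≤ j → 1 ≤ H j) : ∃ (Ω : Type) (_ : MeasurableSpace Ω) (μ : Measure Ω) (ξ : ℕ → Ω → ℕ),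
    IsProbabilityMeasure μ ∧ (∀ j, Measurable (ξ j)) ∧ iIndepFun ξ μ ∧
      ∀ j, 1 ≤ j → ∀ h < H j, μ.real {ω | ξ j ω = h} = 1 / (H j : ℝ) := by
  classical
  have hne : ∀ j, (range (max 1 (H j))).Nonempty := fun j => ⟨0, mem_range.2 (by omega)⟩
  set P : ∀ j, PMF ℕ := fun j => PMF.uniformOfFinset (range (max 1 (H j))) (hne j) with hP
  obtain ⟨Ω, mΩ, μ, ξ, h1, h2, h3, h4⟩ := exists_hasLaw_indepFun (fun _ : ℕ => ℕ) (fun j => (P j).toMeasure)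
  refine ⟨Ω, mΩ, μ, ξ, h4, h1, h3, fun j hj h hh => ?_⟩
  have e1 : μ {ω | ξ j ω = h} = (P j).toMeasure {h} := by
    rw [← (h2 j).map_eq, Measure.map_apply (h1 j) (measurableSet_singleton h)]
    rfl
  have hm : max 1 (H j) = H j := max_eq_right (hH j hj)
  unfold Measure.real
  rw [e1, PMF.toMeasure_apply_singleton _ _ (measurableSet_singleton h), hP]
  simp only
  rw [PMF.uniformOfFinset_apply_of_mem _ (by rw [mem_range, hm]; exact hh), card_range, hm]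
  rw [ENNReal.toReal_inv, ENNReal.toReal_natCast, one_div]

variable {Ω : Type*} [MeasurableSpace Ω] {μ : Measure Ω}

omit [MeasurableSpace Ω] in
lemma rep_ncard (E : ℕ → Set Ω) (n : ℕ) (ω : Ω) :
    {m : ℕ | 1 ≤ m ∧ m < n ∧ ω ∈ E (n - m) ∧ ω ∈ E m ∧ ω ∈ E (P m)}.ncard = rep E n ω := by
  classical
  unfold rep
  rw [← Set.ncard_coe_finset]
  congr 1
  ext m
  rw [Finset.mem_coe, Finset.mem_filter, Finset.mem_Ioo]
  exact ⟨fun h => ⟨⟨h.1, h.2.1⟩, h.2.2⟩, fun h => ⟨h.1.1, h.1.2, h.2⟩⟩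

omit [MeasurableSpace Ω] in
lemma repM_ncard (E : ℕ → Set Ω) (n M : ℕ) (ω : Ω) :
    {m : ℕ | 1 ≤ m ∧ m ≤ M ∧ ω ∈ E (n - m) ∧ ω ∈ E m ∧ ω ∈ E (P m)}.ncard = repM E n M ω := by
  classical
  unfold repM
  rw [← Set.ncard_coe_finset]
  congr 1
  ext m
  rw [Finset.mem_coe, Finset.mem_filter, Finset.mem_Ioc]
  exact ⟨fun h => ⟨⟨h.1, h.2.1⟩, h.2.2⟩, fun h => ⟨h.1.1, h.1.2, h.2⟩⟩

/-- the hypotheses of the laws -/
theorem prime_hyp : ∃ δ c C : ℝ, 0 < δ ∧ δ < 1 ∧ 0 < c ∧ 0 < C ∧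
    ∀ {Ω : Type*} [MeasurableSpace Ω] (μ : Measure Ω) [IsProbabilityMeasure μ] (H : ℕ → ℕ) (ξ : ℕ → Ω → ℕ),
      (∀ j, 1 ≤ j → (P j : ℝ) ^ (2 * (1 - δ)) ≤ H j ∧ (H j : ℝ) ≤ (P j : ℝ) ^ 2) →
      (∀ j, Measurable (ξ j)) → iIndepFun ξ μ → (∀ j, 1 ≤ j → ∀ h < H j, μ.real {ω | ξ j ω = h} = 1 / (H j : ℝ)) →
      (∀ j, MeasurableSet {ω | (P j ^ 2 - 2 + ξ j ω).Prime}) ∧ iIndepSet (fun j => {ω | (P j ^ 2 - 2 + ξ j ω).Prime}) μ ∧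
      (∀ᶠ j : ℕ in atTop, c / Real.log ((j : ℝ) + 2) ≤ μ.real {ω | (P j ^ 2 - 2 + ξ j ω).Prime}) ∧
      (∀ j : ℕ, 1 ≤ j → μ.real {ω | (P j ^ 2 - 2 + ξ j ω).Prime} ≤ C / Real.log ((j : ℝ) + 2)) := by
  obtain ⟨δ, c, hδ, hδ1, hc, hw⟩ := window_prime
  obtain ⟨C, hC, hu⟩ := window_upper hδ1
  refine ⟨δ, c, C, hδ, hδ1, hc, hC, ?_⟩
  intro Ω _ μ _ H ξ hH hm hind hunif
  obtain ⟨h1, h2⟩ := indep_sets (μ := μ) hm hind (fun j x => (P j ^ 2 - 2 + x).Prime)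
  have hprob : ∀ j, 1 ≤ j → μ.real {ω | (P j ^ 2 - 2 + ξ j ω).Prime} =
      (#((range (H j)).filter fun h => (P j ^ 2 - 2 + h).Prime) : ℝ) / H j := by
    intro j hj
    have h3 := prob_unif (μ := μ) (hm j) (hu j (H j) hj (hH j hj).1).1 (hunif j hj) (fun x => (P j ^ 2 - 2 + x).Prime)
    rw [h3]
    congr!
  refine ⟨h1, h2, ?_, ?_⟩
  · filter_upwards [hw, eventually_ge_atTop 1] with j hj hj1
    rw [hprob j hj1]
    exact hj (H j) (hH j hj1).1 (hH j hj1).2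
  · intro j hj
    rw [hprob j hj]
    exact (hu j (H j) hj (hH j hj).1).2

end Pool.Agent.T9h55.RM
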