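import Pool.Agent.T9h55.RM.LawB
import Pool.Agent.H469R10.HO.Final
import Pool.Agent.Helper601.BT

/-! The random model: independent perturbations, primes in the windows (helper55). -/

set_option autoImplicit false

namespace Pool.Agent.T9h55.RM

open Finset MeasureTheory ProbabilityTheory Filter

variable {Ω : Type*} [MeasurableSpace Ω] {μ : Measure Ω}

open Classical in
lemma prob_unif [IsProbabilityMeasure μ] {ξ : Ω → ℕ} (hξ : Measurable ξ) {H : ℕ} (hH : 1 ≤ H)
    (hu : ∀ h < H, μ.real {ω | ξ ω = h} = 1 / (H : ℝ)) (Q : ℕ → Prop) :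
    μ.real {ω | Q (ξ ω)} = (#((range H).filter Q) : ℝ) / H := by
  have hH0 : (0 : ℝ) < H := by exact_mod_cast hH
  have hmeas : ∀ Q : ℕ → Prop, MeasurableSet {ω | Q (ξ ω)} := fun Q => hξ (MeasurableSet.of_discrete : MeasurableSet {x | Q x})
  have key : ∀ Q : ℕ → Prop, μ.real {ω | Q (ξ ω) ∧ ξ ω < H} = (#((range H).filter Q) : ℝ) / H := by
    intro Q
    have e : {ω | Q (ξ ω) ∧ ξ ω < H} = ⋃ h ∈ (range H).filter Q, {ω | ξ ω = h} := by
      ext ω
      simp only [Set.mem_ofPred_eq, Set.mem_iUnion, mem_filter, mem_range, exists_prop]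
      constructor
      · rintro ⟨h1, h2⟩
        exact ⟨ξ ω, ⟨h2, h1⟩, rfl⟩
      · rintro ⟨h, ⟨h1, h2⟩, h3⟩
        rw [h3]
        exact ⟨h2, h1⟩
    rw [e, measureReal_biUnion_finset]
    · rw [Finset.sum_congr rfl fun h hh => hu h (mem_range.1 (mem_filter.1 hh).1), Finset.sum_const, nsmul_eq_mul]
      ring
    · intro a _ b _ hab
      rw [Function.onFun, Set.disjoint_left]
      intro ω h1 h2
      exact hab (h1.symm.trans h2)
    · intro h _
      exact hmeas (fun x => x = h)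
  have htot := key (fun _ => True)
  have hrest : μ.real {ω | ¬ ξ ω < H} = 0 := by
    have e : {ω | ¬ ξ ω < H} = {ω | True ∧ ξ ω < H}ᶜ := by
      ext ω
      simp
    rw [e, probReal_compl_eq_one_sub (hmeas (fun x => True ∧ x < H)), htot]
    simp only [Finset.filter_true, card_range]
    rw [div_self hH0.ne', sub_self]
  have hsplit : μ.real {ω | Q (ξ ω)} = μ.real {ω | Q (ξ ω) ∧ ξ ω < H} + μ.real {ω | Q (ξ ω) ∧ ¬ ξ ω < H} := by
    rw [← measureReal_union]
    · congr 1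
      ext ω
      simp only [Set.mem_ofPred_eq, Set.mem_union]
      tauto
    · rw [Set.disjoint_left]
      rintro ω ⟨_, h1⟩ ⟨_, h2⟩
      exact h2 h1
    · exact hmeas (fun x => Q x ∧ ¬ x < H)
  have h0 : μ.real {ω | Q (ξ ω) ∧ ¬ ξ ω < H} = 0 := by
    refine le_antisymm ?_ measureReal_nonneg
    rw [← hrest]
    exact measureReal_mono (fun ω h => h.2) (measure_ne_top μ _)
  rw [hsplit, h0, add_zero, key Q]

lemma indep_sets {ξ : ℕ → Ω → ℕ} (hξ : ∀ j, Measurable (ξ j)) (hind : iIndepFun ξ μ) (Q : ℕ → ℕ → Prop) :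
    (∀ j, MeasurableSet {ω | Q j (ξ j ω)}) ∧ iIndepSet (fun j => {ω | Q j (ξ j ω)}) μ := by
  have hm : ∀ j, MeasurableSet {ω | Q j (ξ j ω)} := fun j => hξ j (MeasurableSet.of_discrete : MeasurableSet {x | Q j x})
  refine ⟨hm, ?_⟩
  rw [iIndepSet_iff_meas_biInter hm]
  intro s
  exact hind.measure_inter_preimage_eq_mul s (sets := fun j => {x | Q j x}) fun j _ => MeasurableSet.of_discrete

/-- the primes in a window -/
lemma window_prime : ∃ δ c : ℝ, 0 < δ ∧ δ < 1 ∧ 0 < c ∧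
    (∀ᶠ j : ℕ in atTop, ∀ H : ℕ, (P j : ℝ) ^ (2 * (1 - δ)) ≤ H → (H : ℝ) ≤ (P j : ℝ) ^ 2 →
      c / Real.log ((j : ℝ) + 2) ≤ (#((range H).filter fun h => (P j ^ 2 - 2 + h).Prime) : ℝ) / H) := by
  obtain ⟨δ, η, hδ, hδ1, hη, X₀, hX0, hHo⟩ := Pool.Agent.H469R10.HO.hoheisel
  refine ⟨δ, η / 8, hδ, hδ1, by positivity, ?_⟩
  filter_upwards [P_le_sq, eventually_ge_atTop (X₀ + 10)] with j hj1 hj2 H hH1 hH2
  have hP := le_P (m := j) (by omega)
  set q := P j with hq
  have hq10 : 10 ≤ q := by omega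
  have hqX : X₀ ≤ q := by omega
  have hqq : q * 10 ≤ q * q := Nat.mul_le_mul_left q hq10
  set X := q ^ 2 - 3 with hX
  have hX1 : X + 3 = q ^ 2 := by
    have : 3 ≤ q ^ 2 := by nlinarith
    omega
  have hX2 : X₀ ≤ X := by nlinarith
  set Y := min H X with hY
  have hqr : (10 : ℝ) ≤ q := by exact_mod_cast hq10
  have hXr : (X : ℝ) + 3 = (q : ℝ) ^ 2 := by exact_mod_cast hX1
  have hX0r : (0 : ℝ) < X := by nlinarith
  have hXq : (X : ℝ) ≤ (q : ℝ) ^ 2 := by linarith
  have hpow : (X : ℝ) ^ (1 - δ) ≤ (q : ℝ) ^ (2 * (1 - δ)) := by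
    rw [Real.rpow_mul (by linarith), Real.rpow_two]
    exact Real.rpow_le_rpow hX0r.le hXq (by linarith)
  have hYlo : (X : ℝ) ^ (1 - δ) ≤ Y := by
    rw [hY, Nat.cast_min]
    refine le_min (hpow.trans hH1) ?_
    calc (X : ℝ) ^ (1 - δ) ≤ (X : ℝ) ^ (1 : ℝ) := Real.rpow_le_rpow_of_exponent_le (by nlinarith) (by linarith)
      _ = X := Real.rpow_one _
  have hmain := hHo X Y hX2 hYlo (min_le_right _ _)
  have hcard : #((Ioc X (X + Y)).filter Nat.Prime) ≤ #((range H).filter fun h => (q ^ 2 - 2 + h).Prime) := by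
    apply Finset.card_le_card_of_injOn (fun x => x - (X + 1))
    · intro x hx
      have hx' := Finset.mem_coe.1 hx
      rw [mem_filter, mem_Ioc] at hx'
      apply Finset.mem_coe.2
      rw [mem_filter, mem_range]
      have hYH : Y ≤ H := min_le_left _ _
      have h7 : (fun x => x - (X + 1)) x = x - (X + 1) := rfl
      rw [h7]
      refine ⟨by omega, ?_⟩
      have : q ^ 2 - 2 + (x - (X + 1)) = x := by omega
      rw [this]
      exact hx'.2
    · intro a ha b hb hab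
      have ha' := Finset.mem_coe.1 ha
      have hb' := Finset.mem_coe.1 hb
      rw [mem_filter, mem_Ioc] at ha' hb'
      simp only at hab
      omega
  have hcardr : (#((Ioc X (X + Y)).filter Nat.Prime) : ℝ) ≤ (#((range H).filter fun h => (q ^ 2 - 2 + h).Prime) : ℝ) := by
    exact_mod_cast hcard
  have hH0 : (0 : ℝ) < H := lt_of_lt_of_le (Real.rpow_pos_of_pos (by linarith) _) hH1
  have hYH : (H : ℝ) / 2 ≤ Y := by
    rw [hY, Nat.cast_min]
    refine le_min (by linarith) ?_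
    nlinarith
  have hlogX0 : 0 < Real.log X := Real.log_pos (by nlinarith)
  have hlogX : Real.log X ≤ 4 * Real.log ((j : ℝ) + 2) := by
    have h1 : (X : ℝ) ≤ ((j : ℝ) + 2) ^ 4 := by
      have h2 : q ^ 2 ≤ (j + 2) ^ 4 := by
        calc q ^ 2 ≤ (j ^ 2) ^ 2 := Nat.pow_le_pow_left hj1 2
          _ = j ^ 4 := by ring
          _ ≤ (j + 2) ^ 4 := Nat.pow_le_pow_left (by omega) 4
      have h3 : (q : ℝ) ^ 2 ≤ ((j : ℝ) + 2) ^ 4 := by exact_mod_cast h2
      linarith
    have h4 := Real.log_le_log hX0r h1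
    rw [Real.log_pow] at h4
    push_cast at h4
    exact h4
  have hlj := log_ge_one (i := j) (by omega)
  rw [le_div_iff₀ hH0]
  refine le_trans ?_ hcardr
  refine le_trans ?_ hmain
  rw [div_mul_eq_mul_div, div_le_div_iff₀ (by linarith) hlogX0]
  have hY0 : (0 : ℝ) ≤ Y := Nat.cast_nonneg _
  calc η / 8 * H * Real.log X ≤ η / 8 * (2 * Y) * (4 * Real.log ((j : ℝ) + 2)) := by
        have : (H : ℝ) ≤ 2 * Y := by linarith
        gcongr
    _ = η * Y * Real.log ((j : ℝ) + 2) := by ring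

lemma window_upper {δ : ℝ} (hδ1 : δ < 1) : ∃ C : ℝ, 0 < C ∧ ∀ j H : ℕ, 1 ≤ j → (P j : ℝ) ^ (2 * (1 - δ)) ≤ H →
    1 ≤ H ∧ (#((range H).filter fun h => (P j ^ 2 - 2 + h).Prime) : ℝ) / H ≤ C / Real.log ((j : ℝ) + 2) := by
  obtain ⟨C0, hC01, hBT⟩ := Pool.Agent.Helper601.brun_titchmarsh
  have hd : 0 < 1 - δ := by linarith
  refine ⟨C0 / (1 - δ), by positivity, fun j H hj hH => ?_⟩
  have hP := le_P hj
  have hP2 : 2 ≤ P j := (P_prime j).two_le
  have hPr : (2 : ℝ) ≤ P j := by exact_mod_cast hP2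
  have hH1 : (1 : ℝ) < H := lt_of_lt_of_le (Real.one_lt_rpow (by linarith) (by linarith)) hH
  have hH2 : 2 ≤ H := by
    have : 1 < H := by exact_mod_cast hH1
    omega
  refine ⟨by omega, ?_⟩
  have h1 := hBT (P j ^ 2 - 2) 1 H hH2 (Or.inl rfl)
  simp only [mul_one] at h1
  have hlH : 0 < Real.log H := Real.log_pos hH1
  have hlog : (1 - δ) * Real.log ((j : ℝ) + 2) ≤ Real.log H := by
    have h2 := Real.log_le_log (Real.rpow_pos_of_pos (by linarith) _) hH
    rw [Real.log_rpow (by linarith)] at h2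
    have h3 : Real.log ((j : ℝ) + 2) ≤ 2 * Real.log (P j) := by
      have h4 : ((j : ℝ) + 2) ≤ (P j : ℝ) ^ 2 := by
        have : j + 2 ≤ P j ^ 2 := by nlinarith
        exact_mod_cast this
      have h5 := Real.log_le_log (by positivity) h4
      rw [Real.log_pow] at h5
      push_cast at h5
      exact h5
    nlinarith
  have hlj := log_ge_one (i := j) hj
  have hH0 : (0 : ℝ) < H := by linarith
  rw [div_le_iff₀ hH0]
  refine h1.trans ?_
  calc C0 * H / Real.log H ≤ C0 * H / ((1 - δ) * Real.log ((j : ℝ) + 2)) := by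
        apply div_le_div_of_nonneg_left (by positivity) (by positivity) hlog
    _ = C0 / (1 - δ) / Real.log ((j : ℝ) + 2) * H := by field_simp

end Pool.Agent.T9h55.RM
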