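import Pool.Agent.T9h55.RM.LawB

/-! Concentration of the number of the groups of independent events which occur (helper55). -/

set_option autoImplicit false

namespace Pool.Agent.T9h55.RM

open Finset MeasureTheory ProbabilityTheory Filter

variable {Ω : Type*} [MeasurableSpace Ω] {μ : Measure Ω}

lemma exp_le_quad {t : ℝ} (h0 : 0 ≤ t) (h1 : t ≤ 1) : Real.exp t - 1 ≤ t + t ^ 2 ∧ Real.exp (-t) - 1 ≤ -t + t ^ 2 := by
  have h2 : |t| ≤ 1 := by rw [abs_of_nonneg h0]; exact h1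
  have h3 := Real.abs_exp_sub_one_sub_id_le h2
  have h4 := Real.abs_exp_sub_one_sub_id_le (x := -t) (by rw [abs_neg]; exact h2)
  have h5 := (abs_le.1 h3).2
  have h6 := (abs_le.1 h4).2
  constructor
  · linarith
  · rw [neg_sq] at h6
    linarith

lemma conc_up [IsProbabilityMeasure μ] {E : ℕ → Set Ω} (hE : ∀ j, MeasurableSet (E j)) (hind : iIndepSet E μ)
    (s : Finset ℕ) (G : ℕ → Finset ℕ) (hG : (s : Set ℕ).PairwiseDisjoint G) {δ : ℝ} (hδ : 0 ≤ δ) (hδ1 : δ ≤ 1) :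
    μ.real {ω | (1 + δ) * ∑ m ∈ s, ∏ j ∈ G m, μ.real (E j) ≤ (cnt E G s ω : ℝ)} ≤
      Real.exp (-(δ ^ 2 / 4 * ∑ m ∈ s, ∏ j ∈ G m, μ.real (E j))) := by
  set Q : ℝ := ∑ m ∈ s, ∏ j ∈ G m, μ.real (E j) with hQ
  have hQ0 : 0 ≤ Q := Finset.sum_nonneg fun m _ => Finset.prod_nonneg fun j _ => measureReal_nonneg
  have h1 := measure_ge_le_exp_mul_mgf (μ := μ) (X := fun ω => (cnt E G s ω : ℝ)) (t := δ / 2) ((1 + δ) * Q) (by linarith)
    (cnt_int hE G s _)
  refine h1.trans ?_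
  rw [mgf_cnt hE hind s G hG]
  have he := (exp_le_quad (t := δ / 2) (by linarith) (by linarith)).1
  have he1 : 0 ≤ Real.exp (δ / 2) - 1 := by
    have := Real.add_one_le_exp (δ / 2)
    linarith
  have h2 : ∏ m ∈ s, (1 + (Real.exp (δ / 2) - 1) * ∏ j ∈ G m, μ.real (E j)) ≤ Real.exp ((Real.exp (δ / 2) - 1) * Q) := by
    rw [hQ, Finset.mul_sum, Real.exp_sum]
    refine Finset.prod_le_prod (fun m _ => ?_) fun m _ => ?_
    · have h4 : (0 : ℝ) ≤ ∏ j ∈ G m, μ.real (E j) := Finset.prod_nonneg fun j _ => measureReal_nonneg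
      have := mul_nonneg he1 h4
      linarith
    · have := Real.add_one_le_exp ((Real.exp (δ / 2) - 1) * ∏ j ∈ G m, μ.real (E j))
      linarith
  calc Real.exp (-(δ / 2) * ((1 + δ) * Q)) * ∏ m ∈ s, (1 + (Real.exp (δ / 2) - 1) * ∏ j ∈ G m, μ.real (E j))
      ≤ Real.exp (-(δ / 2) * ((1 + δ) * Q)) * Real.exp ((Real.exp (δ / 2) - 1) * Q) := by gcongr
    _ = Real.exp (-(δ / 2) * ((1 + δ) * Q) + (Real.exp (δ / 2) - 1) * Q) := by rw [← Real.exp_add]
    _ ≤ Real.exp (-(δ ^ 2 / 4 * Q)) := by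
        apply Real.exp_le_exp.2
        have h5 : (Real.exp (δ / 2) - 1) * Q ≤ (δ / 2 + (δ / 2) ^ 2) * Q := mul_le_mul_of_nonneg_right he hQ0
        nlinarith

lemma conc_low [IsProbabilityMeasure μ] {E : ℕ → Set Ω} (hE : ∀ j, MeasurableSet (E j)) (hind : iIndepSet E μ)
    (s : Finset ℕ) (G : ℕ → Finset ℕ) (hG : (s : Set ℕ).PairwiseDisjoint G) {δ : ℝ} (hδ : 0 ≤ δ) (hδ1 : δ ≤ 1) :
    μ.real {ω | (cnt E G s ω : ℝ) ≤ (1 - δ) * ∑ m ∈ s, ∏ j ∈ G m, μ.real (E j)} ≤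
      Real.exp (-(δ ^ 2 / 4 * ∑ m ∈ s, ∏ j ∈ G m, μ.real (E j))) := by
  set Q : ℝ := ∑ m ∈ s, ∏ j ∈ G m, μ.real (E j) with hQ
  have hQ0 : 0 ≤ Q := Finset.sum_nonneg fun m _ => Finset.prod_nonneg fun j _ => measureReal_nonneg
  have h1 := measure_le_le_exp_mul_mgf (μ := μ) (X := fun ω => (cnt E G s ω : ℝ)) (t := -(δ / 2)) ((1 - δ) * Q) (by linarith)
    (cnt_int hE G s _)
  refine h1.trans ?_
  rw [mgf_cnt hE hind s G hG]
  have he := (exp_le_quad (t := δ / 2) (by linarith) (by linarith)).2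
  have he1 : Real.exp (-(δ / 2)) - 1 ≤ 0 := by
    have : Real.exp (-(δ / 2)) ≤ 1 := Real.exp_le_one_iff.2 (by linarith)
    linarith
  have h2 : ∏ m ∈ s, (1 + (Real.exp (-(δ / 2)) - 1) * ∏ j ∈ G m, μ.real (E j)) ≤
      Real.exp ((Real.exp (-(δ / 2)) - 1) * Q) := by
    rw [hQ, Finset.mul_sum, Real.exp_sum]
    refine Finset.prod_le_prod (fun m _ => ?_) fun m _ => ?_
    · have h3 : ∏ j ∈ G m, μ.real (E j) ≤ 1 := Finset.prod_le_one (fun j _ => measureReal_nonneg) fun j _ => measureReal_le_one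
      have h4 : (0 : ℝ) ≤ ∏ j ∈ G m, μ.real (E j) := Finset.prod_nonneg fun j _ => measureReal_nonneg
      have h5 := Real.exp_pos (-(δ / 2))
      nlinarith
    · have := Real.add_one_le_exp ((Real.exp (-(δ / 2)) - 1) * ∏ j ∈ G m, μ.real (E j))
      linarith
  calc Real.exp (-(-(δ / 2)) * ((1 - δ) * Q)) * ∏ m ∈ s, (1 + (Real.exp (-(δ / 2)) - 1) * ∏ j ∈ G m, μ.real (E j))
      ≤ Real.exp (-(-(δ / 2)) * ((1 - δ) * Q)) * Real.exp ((Real.exp (-(δ / 2)) - 1) * Q) := by gcongr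
    _ = Real.exp (-(-(δ / 2)) * ((1 - δ) * Q) + (Real.exp (-(δ / 2)) - 1) * Q) := by rw [← Real.exp_add]
    _ ≤ Real.exp (-(δ ^ 2 / 4 * Q)) := by
        apply Real.exp_le_exp.2
        have h5 : (Real.exp (-(δ / 2)) - 1) * Q ≤ (-(δ / 2) + (δ / 2) ^ 2) * Q := mul_le_mul_of_nonneg_right he hQ0
        nlinarith

/-- **Asymptotics almost surely** from the mean value: if the sum of the probabilities over `s n` is asymptotic to
`c n / (log n)^k`, so is the count, for all `n`. -/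
theorem conc_law [IsProbabilityMeasure μ] {E : ℕ → Set Ω} (hE : ∀ j, MeasurableSet (E j)) (hind : iIndepSet E μ)
    (s : ℕ → Finset ℕ) (G : ℕ → ℕ → Finset ℕ) (hG : ∀ n, (s n : Set ℕ).PairwiseDisjoint (G n)) {c : ℝ} (hc : 0 < c) (k : ℕ)
    (hk : k ≤ 3) (hQ : Tendsto (fun n : ℕ => (∑ m ∈ s n, ∏ j ∈ G n m, μ.real (E j)) / (n / Real.log n ^ k)) atTop (nhds c)) :
    ∀ᵐ ω ∂μ, Tendsto (fun n : ℕ => (cnt E (G n) (s n) ω : ℝ) / (n / Real.log n ^ k)) atTop (nhds c) := by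
  have hlog3 : ∀ᶠ n : ℕ in atTop, (n : ℝ) / Real.log n ^ 3 ≤ n / Real.log n ^ k := by
    filter_upwards [(Real.tendsto_log_atTop.comp tendsto_natCast_atTop_atTop).eventually_ge_atTop 1] with n hn
    simp only [Function.comp_apply] at hn
    apply div_le_div_of_nonneg_left (Nat.cast_nonneg _) (by positivity)
    exact pow_le_pow_right₀ hn hk
  have hmain : ∀ i : ℕ, ∀ᵐ ω ∂μ, ∀ᶠ n : ℕ in atTop, |(cnt E (G n) (s n) ω : ℝ) / (n / Real.log n ^ k) - c| ≤
      3 * c / ((i : ℝ) + 1) := by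
    intro i
    set δ : ℝ := 1 / ((i : ℝ) + 1) with hδ
    have hδ0 : 0 < δ := by positivity
    have hδ1 : δ ≤ 1 := by
      rw [hδ, div_le_one (by positivity)]
      have : (0 : ℝ) ≤ i := Nat.cast_nonneg _
      linarith
    have hQev : ∀ᶠ n : ℕ in atTop, (1 - δ / 2) * c * (n / Real.log n ^ k) ≤ ∑ m ∈ s n, ∏ j ∈ G n m, μ.real (E j) ∧
        ∑ m ∈ s n, ∏ j ∈ G n m, μ.real (E j) ≤ (1 + δ / 2) * c * (n / Real.log n ^ k) := by
      have h1 := hQ.eventually (Metric.ball_mem_nhds c (show 0 < δ / 2 * c by positivity))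
      filter_upwards [h1, (Real.tendsto_log_atTop.comp tendsto_natCast_atTop_atTop).eventually_ge_atTop 1,
        eventually_ge_atTop 1] with n h2 h3 h4
      simp only [Function.comp_apply] at h3
      have hn0 : (0 : ℝ) < n := by exact_mod_cast h4
      have hpos : (0 : ℝ) < n / Real.log n ^ k := by positivity
      rw [Real.dist_eq, abs_lt] at h2
      obtain ⟨h5, h6⟩ := h2
      have h7 : (∑ m ∈ s n, ∏ j ∈ G n m, μ.real (E j)) =
          (∑ m ∈ s n, ∏ j ∈ G n m, μ.real (E j)) / (n / Real.log n ^ k) * (n / Real.log n ^ k) := by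
        field_simp
      rw [h7]
      constructor
      · apply mul_le_mul_of_nonneg_right _ hpos.le
        nlinarith
      · apply mul_le_mul_of_nonneg_right _ hpos.le
        nlinarith
    have hexp : ∀ᶠ n : ℕ in atTop, Real.exp (-(δ ^ 2 / 4 * ∑ m ∈ s n, ∏ j ∈ G n m, μ.real (E j))) ≤ 1 / (n : ℝ) ^ 2 := by
      filter_upwards [exp_small (a := δ ^ 2 / 4 * ((1 - δ / 2) * c)) (by
        have : 0 < 1 - δ / 2 := by linarith
        positivity), hQev, hlog3] with n h1 h2 h3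
      refine le_trans (Real.exp_le_exp.2 ?_) h1
      have h4 : (1 - δ / 2) * c * (n / Real.log n ^ 3) ≤ (1 - δ / 2) * c * (n / Real.log n ^ k) :=
        mul_le_mul_of_nonneg_left h3 (by
          have : 0 < 1 - δ / 2 := by linarith
          positivity)
      have h5 : (1 - δ / 2) * c * (n / Real.log n ^ 3) ≤ ∑ m ∈ s n, ∏ j ∈ G n m, μ.real (E j) := h4.trans h2.1
      have h6 : δ ^ 2 / 4 * ((1 - δ / 2) * c * (n / Real.log n ^ 3)) ≤
          δ ^ 2 / 4 * ∑ m ∈ s n, ∏ j ∈ G n m, μ.real (E j) := mul_le_mul_of_nonneg_left h5 (by positivity)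
      linarith
    have a1 := bc (μ := μ) (B := 1) (A := fun n => {ω | (1 + δ) * ∑ m ∈ s n, ∏ j ∈ G n m, μ.real (E j) ≤ (cnt E (G n) (s n) ω : ℝ)})
      (by
        filter_upwards [hexp] with n h1
        rw [one_mul]
        exact (conc_up hE hind (s n) (G n) (hG n) hδ0.le hδ1).trans h1)
    have a2 := bc (μ := μ) (B := 1) (A := fun n => {ω | (cnt E (G n) (s n) ω : ℝ) ≤ (1 - δ) * ∑ m ∈ s n, ∏ j ∈ G n m, μ.real (E j)})
      (by
        filter_upwards [hexp] with n h1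
        rw [one_mul]
        exact (conc_low hE hind (s n) (G n) (hG n) hδ0.le hδ1).trans h1)
    filter_upwards [a1, a2] with ω b1 b2
    filter_upwards [b1, b2, hQev, (Real.tendsto_log_atTop.comp tendsto_natCast_atTop_atTop).eventually_ge_atTop 1,
        eventually_ge_atTop 1] with n c1 c2 c3 h3 h4
    simp only [Function.comp_apply] at h3
    simp only [Set.mem_ofPred_eq, not_le] at c1 c2
    have hn0 : (0 : ℝ) < n := by exact_mod_cast h4
    have hpos : (0 : ℝ) < n / Real.log n ^ k := by positivity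
    have e : 3 * c / ((i : ℝ) + 1) = 3 * c * δ := by rw [hδ]; ring
    rw [e, abs_le]
    have hup : (cnt E (G n) (s n) ω : ℝ) ≤ (1 + δ) * ((1 + δ / 2) * c * (n / Real.log n ^ k)) :=
      c1.le.trans (mul_le_mul_of_nonneg_left c3.2 (by linarith))
    have hlo : (1 - δ) * ((1 - δ / 2) * c * (n / Real.log n ^ k)) ≤ (cnt E (G n) (s n) ω : ℝ) :=
      (mul_le_mul_of_nonneg_left c3.1 (by linarith)).trans c2.le
    constructor
    · rw [neg_le_sub_iff_le_add, ← sub_le_iff_le_add, le_div_iff₀ hpos]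
      refine le_trans ?_ hlo
      have : (c - 3 * c * δ) ≤ (1 - δ) * ((1 - δ / 2) * c) := by nlinarith
      calc (c - 3 * c * δ) * (n / Real.log n ^ k) ≤ (1 - δ) * ((1 - δ / 2) * c) * (n / Real.log n ^ k) :=
            mul_le_mul_of_nonneg_right this hpos.le
        _ = _ := by ring
    · rw [sub_le_iff_le_add, div_le_iff₀ hpos]
      refine hup.trans ?_
      have : (1 + δ) * ((1 + δ / 2) * c) ≤ 3 * c * δ + c := by nlinarith
      calc (1 + δ) * ((1 + δ / 2) * c * (n / Real.log n ^ k)) = (1 + δ) * ((1 + δ / 2) * c) * (n / Real.log n ^ k) := by ring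
        _ ≤ _ := mul_le_mul_of_nonneg_right this hpos.le
  rw [← ae_all_iff] at hmain
  filter_upwards [hmain] with ω hω
  rw [Metric.tendsto_nhds]
  intro ε hε
  obtain ⟨i, hi⟩ := exists_nat_gt (3 * c / ε)
  filter_upwards [hω i] with n hn
  rw [Real.dist_eq]
  refine lt_of_le_of_lt hn ?_
  rw [div_lt_iff₀ (by positivity)]
  rw [div_lt_iff₀ hε] at hi
  nlinarith

end Pool.Agent.T9h55.RM
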