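import Mathlib

/-! Groups of independent events: number of the groups all of whose events occur (helper55). -/

set_option autoImplicit false

namespace Pool.Agent.T9h55.RM

open Finset MeasureTheory ProbabilityTheory

variable {Ω : Type*} [MeasurableSpace Ω] {μ : Measure Ω}

/-- the event that all events of the group occur -/
def Gr (E : ℕ → Set Ω) (G : ℕ → Finset ℕ) (m : ℕ) : Set Ω := ⋂ j ∈ G m, E j

lemma mem_Gr {E : ℕ → Set Ω} {G : ℕ → Finset ℕ} {m : ℕ} {ω : Ω} : ω ∈ Gr E G m ↔ ∀ j ∈ G m, ω ∈ E j := by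
  simp [Gr]

lemma Gr_meas {E : ℕ → Set Ω} (hE : ∀ j, MeasurableSet (E j)) (G : ℕ → Finset ℕ) (m : ℕ) :
    MeasurableSet (Gr E G m) := Finset.measurableSet_biInter _ fun j _ => hE j

lemma Gr_real {E : ℕ → Set Ω} (hind : iIndepSet E μ) (G : ℕ → Finset ℕ) (m : ℕ) :
    μ.real (Gr E G m) = ∏ j ∈ G m, μ.real (E j) := by
  unfold Gr Measure.real
  rw [hind.meas_biInter, ENNReal.toReal_prod]

lemma indep_groups {E : ℕ → Set Ω} (hE : ∀ j, MeasurableSet (E j)) (hind : iIndepSet E μ) (s : Finset ℕ)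
    (G : ℕ → Finset ℕ) (hG : (s : Set ℕ).PairwiseDisjoint G) : iIndepSet (fun m : s => Gr E G m) μ := by
  classical
  rw [iIndepSet_iff_meas_biInter fun m : s => Gr_meas hE G (m : ℕ)]
  intro t
  have hd : ((t.map (Function.Embedding.subtype _) : Finset ℕ) : Set ℕ).PairwiseDisjoint G := by
    refine hG.subset ?_
    intro x hx
    simp only [coe_map, Function.Embedding.subtype_apply, Set.mem_image, Finset.mem_coe] at hx
    obtain ⟨y, -, rfl⟩ := hx
    exact y.2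
  have e1 : (⋂ m ∈ t, Gr E G (m : ℕ)) = ⋂ j ∈ (t.map (Function.Embedding.subtype _)).biUnion G, E j := by
    ext ω
    simp only [Gr, Set.mem_iInter, mem_biUnion, Finset.mem_map, Function.Embedding.subtype_apply]
    constructor
    · rintro h j ⟨m, ⟨y, hy, rfl⟩, hj⟩
      exact h y hy j hj
    · intro h y hy j hj
      exact h j ⟨y, ⟨y, hy, rfl⟩, hj⟩
  rw [e1, hind.meas_biInter, Finset.prod_biUnion hd, Finset.prod_map]
  refine Finset.prod_congr rfl fun m _ => ?_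
  unfold Gr
  rw [hind.meas_biInter]
  rfl

open Classical in
/-- the number of the groups all of whose events occur -/
noncomputable def cnt (E : ℕ → Set Ω) (G : ℕ → Finset ℕ) (s : Finset ℕ) (ω : Ω) : ℕ :=
  #(s.filter fun m => ω ∈ Gr E G m)

lemma cnt_eq (E : ℕ → Set Ω) (G : ℕ → Finset ℕ) (s : Finset ℕ) (ω : Ω) :
    (cnt E G s ω : ℝ) = (∑ m : s, (Gr E G (m : ℕ)).indicator (fun _ => (1 : ℝ))) ω := by
  classical
  unfold cnt
  rw [Finset.sum_apply, Finset.sum_coe_sort s (fun m => (Gr E G m).indicator (fun _ => (1 : ℝ)) ω), Finset.card_filter]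
  push_cast
  refine Finset.sum_congr rfl fun m _ => ?_
  rw [Set.indicator_apply]

lemma mgf_ind [IsProbabilityMeasure μ] {F : Set Ω} (hF : MeasurableSet F) (t : ℝ) :
    mgf (F.indicator (fun _ => (1 : ℝ))) μ t = 1 + (Real.exp t - 1) * μ.real F := by
  unfold mgf
  have e : (fun ω => Real.exp (t * F.indicator (fun _ => (1 : ℝ)) ω)) =
      fun ω => 1 + F.indicator (fun _ => Real.exp t - 1) ω := by
    funext ω
    by_cases h : ω ∈ F
    · simp [h]
    · simp [h]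
  rw [e, integral_add (integrable_const _) ((integrable_const _).indicator hF), integral_indicator hF]
  simp
  ring

lemma mgf_cnt [IsProbabilityMeasure μ] {E : ℕ → Set Ω} (hE : ∀ j, MeasurableSet (E j)) (hind : iIndepSet E μ) (s : Finset ℕ)
    (G : ℕ → Finset ℕ) (hG : (s : Set ℕ).PairwiseDisjoint G) (t : ℝ) :
    mgf (fun ω => (cnt E G s ω : ℝ)) μ t = ∏ m ∈ s, (1 + (Real.exp t - 1) * ∏ j ∈ G m, μ.real (E j)) := by
  have h1 := indep_groups hE hind s G hG
  have h2 := h1.iIndepFun_indicator (β := ℝ) (m := inferInstance)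
  have e : (fun ω => (cnt E G s ω : ℝ)) = ∑ m : s, (Gr E G (m : ℕ)).indicator (fun _ => (1 : ℝ)) := by
    funext ω
    exact cnt_eq E G s ω
  rw [e, h2.mgf_sum (fun m => (measurable_const (a := (1 : ℝ))).indicator (Gr_meas hE G m))]
  rw [← Finset.prod_coe_sort s]
  refine Finset.prod_congr rfl fun m _ => ?_
  rw [← Gr_real hind G m]
  exact mgf_ind (Gr_meas hE G m) t

lemma cnt_meas {E : ℕ → Set Ω} (hE : ∀ j, MeasurableSet (E j)) (G : ℕ → Finset ℕ) (s : Finset ℕ) :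
    Measurable (fun ω => (cnt E G s ω : ℝ)) := by
  have e : (fun ω => (cnt E G s ω : ℝ)) = ∑ m : s, (Gr E G (m : ℕ)).indicator (fun _ => (1 : ℝ)) := by
    funext ω
    exact cnt_eq E G s ω
  rw [e]
  have e2 : (∑ m : s, (Gr E G (m : ℕ)).indicator (fun _ => (1 : ℝ))) =
      fun ω => ∑ m : s, (Gr E G (m : ℕ)).indicator (fun _ => (1 : ℝ)) ω := by
    funext ω
    rw [Finset.sum_apply]
  rw [e2]
  exact Finset.measurable_sum _ fun m _ => (measurable_const (a := (1 : ℝ))).indicator (Gr_meas hE G (m : ℕ))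

lemma cnt_int [IsProbabilityMeasure μ] {E : ℕ → Set Ω} (hE : ∀ j, MeasurableSet (E j)) (G : ℕ → Finset ℕ) (s : Finset ℕ)
    (t : ℝ) : Integrable (fun ω => Real.exp (t * (cnt E G s ω : ℝ))) μ := by
  classical
  refine Integrable.of_bound ?_ (Real.exp (|t| * #s)) (ae_of_all _ fun ω => ?_)
  · exact (((cnt_meas hE G s).const_mul t).exp).aestronglyMeasurable
  · rw [Real.norm_eq_abs, abs_of_pos (Real.exp_pos _)]
    apply Real.exp_le_exp.2
    have h1 : (cnt E G s ω : ℝ) ≤ #s := by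
      unfold cnt
      exact_mod_cast Finset.card_filter_le _ _
    have h2 : (0 : ℝ) ≤ (cnt E G s ω : ℝ) := Nat.cast_nonneg _
    calc t * (cnt E G s ω : ℝ) ≤ |t| * (cnt E G s ω : ℝ) := mul_le_mul_of_nonneg_right (le_abs_self t) h2
      _ ≤ |t| * #s := mul_le_mul_of_nonneg_left h1 (abs_nonneg t)

lemma chern_low [IsProbabilityMeasure μ] {E : ℕ → Set Ω} (hE : ∀ j, MeasurableSet (E j)) (hind : iIndepSet E μ)
    (s : Finset ℕ) (G : ℕ → Finset ℕ) (hG : (s : Set ℕ).PairwiseDisjoint G) {v : ℝ} (hv0 : 0 ≤ v)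
    (hv : v ≤ ∑ m ∈ s, ∏ j ∈ G m, μ.real (E j)) :
    μ.real {ω | (cnt E G s ω : ℝ) ≤ v / 4} ≤ Real.exp (-(v / 3)) := by
  have h1 := measure_le_le_exp_mul_mgf (μ := μ) (X := fun ω => (cnt E G s ω : ℝ)) (t := -1) (v / 4) (by norm_num)
    (cnt_int hE G s (-1))
  refine h1.trans ?_
  rw [mgf_cnt hE hind s G hG]
  have he : Real.exp (-1) < 0.3678794413 := by
    have := Real.exp_neg_one_lt_d9
    linarith
  set Q : ℝ := ∑ m ∈ s, ∏ j ∈ G m, μ.real (E j) with hQ
  have h2 : ∏ m ∈ s, (1 + (Real.exp (-1) - 1) * ∏ j ∈ G m, μ.real (E j)) ≤ Real.exp ((Real.exp (-1) - 1) * Q) := by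
    rw [hQ, Finset.mul_sum, Real.exp_sum]
    refine Finset.prod_le_prod (fun m _ => ?_) fun m _ => ?_
    · have h3 : ∏ j ∈ G m, μ.real (E j) ≤ 1 := Finset.prod_le_one (fun j _ => measureReal_nonneg) fun j _ => measureReal_le_one
      have h4 : (0 : ℝ) ≤ ∏ j ∈ G m, μ.real (E j) := Finset.prod_nonneg fun j _ => measureReal_nonneg
      have h5 := Real.exp_pos (-1)
      nlinarith
    · have := Real.add_one_le_exp ((Real.exp (-1) - 1) * ∏ j ∈ G m, μ.real (E j))
      linarith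
  calc Real.exp (- -1 * (v / 4)) * ∏ m ∈ s, (1 + (Real.exp (-1) - 1) * ∏ j ∈ G m, μ.real (E j))
      ≤ Real.exp (- -1 * (v / 4)) * Real.exp ((Real.exp (-1) - 1) * Q) := by gcongr
    _ = Real.exp (v / 4 + (Real.exp (-1) - 1) * Q) := by rw [← Real.exp_add]; ring_nf
    _ ≤ Real.exp (-(v / 3)) := by
        apply Real.exp_le_exp.2
        nlinarith

lemma chern_up [IsProbabilityMeasure μ] {E : ℕ → Set Ω} (hE : ∀ j, MeasurableSet (E j)) (hind : iIndepSet E μ)
    (s : Finset ℕ) (G : ℕ → Finset ℕ) (hG : (s : Set ℕ).PairwiseDisjoint G) {v : ℝ}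
    (hv : ∑ m ∈ s, ∏ j ∈ G m, μ.real (E j) ≤ v) :
    μ.real {ω | 4 * v ≤ (cnt E G s ω : ℝ)} ≤ Real.exp (-(2 * v)) := by
  have h1 := measure_ge_le_exp_mul_mgf (μ := μ) (X := fun ω => (cnt E G s ω : ℝ)) (t := 1) (4 * v) (by norm_num)
    (cnt_int hE G s 1)
  refine h1.trans ?_
  rw [mgf_cnt hE hind s G hG]
  have he : Real.exp 1 < 2.7182818286 := Real.exp_one_lt_d9
  have he1 : 1 < Real.exp 1 := by
    have := Real.add_one_le_exp (1 : ℝ)
    linarith
  set Q : ℝ := ∑ m ∈ s, ∏ j ∈ G m, μ.real (E j) with hQ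
  have hQ0 : 0 ≤ Q := Finset.sum_nonneg fun m _ => Finset.prod_nonneg fun j _ => measureReal_nonneg
  have h2 : ∏ m ∈ s, (1 + (Real.exp 1 - 1) * ∏ j ∈ G m, μ.real (E j)) ≤ Real.exp ((Real.exp 1 - 1) * Q) := by
    rw [hQ, Finset.mul_sum, Real.exp_sum]
    refine Finset.prod_le_prod (fun m _ => ?_) fun m _ => ?_
    · have h4 : (0 : ℝ) ≤ ∏ j ∈ G m, μ.real (E j) := Finset.prod_nonneg fun j _ => measureReal_nonneg
      have : 0 ≤ (Real.exp 1 - 1) * ∏ j ∈ G m, μ.real (E j) := mul_nonneg (by linarith) h4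
      linarith
    · have := Real.add_one_le_exp ((Real.exp 1 - 1) * ∏ j ∈ G m, μ.real (E j))
      linarith
  calc Real.exp (-1 * (4 * v)) * ∏ m ∈ s, (1 + (Real.exp 1 - 1) * ∏ j ∈ G m, μ.real (E j))
      ≤ Real.exp (-1 * (4 * v)) * Real.exp ((Real.exp 1 - 1) * Q) := by gcongr
    _ = Real.exp (-(4 * v) + (Real.exp 1 - 1) * Q) := by rw [← Real.exp_add]; ring_nf
    _ ≤ Real.exp (-(2 * v)) := by
        apply Real.exp_le_exp.2
        nlinarith

end Pool.Agent.T9h55.RM
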