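import Mathlib

/-! Number theoretic input: the `m`-th prime and sums of `1 / log` (helper55). -/

set_option autoImplicit false

namespace Pool.Agent.T9h55.RM

open Finset Filter

/-- the `m`-th prime, `m ≥ 1` -/
noncomputable def P (m : ℕ) : ℕ := Nat.nth Nat.Prime (m - 1)

lemma P_prime (m : ℕ) : (P m).Prime := Nat.prime_nth_prime _

lemma P_lt {m m' : ℕ} (hm : 1 ≤ m) (h : m < m') : P m < P m' :=
  Nat.nth_strictMono Nat.infinite_setOf_prime (by omega)

lemma P_inj {m m' : ℕ} (hm : 1 ≤ m) (hm' : 1 ≤ m') (h : P m = P m') : m = m' := by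
  rcases lt_trichotomy m m' with h1 | h1 | h1
  · exact absurd h (P_lt hm h1).ne
  · exact h1
  · exact absurd h (P_lt hm' h1).ne'

lemma P_one : P 1 = 2 := by
  unfold P
  exact Nat.nth_prime_zero_eq_two

lemma P_two : P 2 = 3 := by
  unfold P
  exact Nat.nth_prime_one_eq_three

lemma le_P {m : ℕ} (hm : 1 ≤ m) : 2 * m ≤ P m + 1 := by
  induction m, hm using Nat.le_induction with
  | base => rw [P_one]; omega
  | succ m hm ih =>
    rcases Nat.lt_or_ge m 2 with h | h
    · have : m = 1 := by omega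
      subst this
      rw [P_two]
    · have h1 : 3 ≤ P m := by omega
      have h2 : P m < P (m + 1) := P_lt hm (by omega)
      have h3 : Odd (P m) := (P_prime m).odd_of_ne_two (by omega)
      have h4 : Odd (P (m + 1)) := (P_prime (m + 1)).odd_of_ne_two (by omega)
      obtain ⟨a, ha⟩ := h3
      obtain ⟨b, hb⟩ := h4
      omega

lemma pi_P {m : ℕ} (hm : 1 ≤ m) : Nat.primeCounting (P m) = m := by
  unfold P
  rw [Nat.primeCounting_eq_primeCounting'_succ, Nat.primeCounting', Nat.count_nth_succ_of_infinite Nat.infinite_setOf_prime]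
  omega

lemma lt_P {n m : ℕ} (h : Nat.primeCounting n < m) : n < P m := by
  by_contra h1
  push Not at h1
  have h2 := Nat.monotone_primeCounting h1
  rw [pi_P (by omega)] at h2
  omega

lemma log_div_tendsto : Tendsto (fun n : ℕ => Real.log n / Real.sqrt n) atTop (nhds 0) := by
  have h1 : Tendsto (fun x : ℝ => Real.log x / x ^ (1 / 2 : ℝ)) atTop (nhds 0) :=
    (isLittleO_log_rpow_atTop (by norm_num : (0 : ℝ) < 1 / 2)).tendsto_div_nhds_zero
  have h2 := h1.comp tendsto_natCast_atTop_atTop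
  refine h2.congr fun n => ?_
  simp only [Function.comp_apply]
  rw [Real.sqrt_eq_rpow]

/-- `log n ≤ ε √n` for large `n` -/
lemma log_le_sqrt {ε : ℝ} (hε : 0 < ε) : ∀ᶠ n : ℕ in atTop, Real.log n ≤ ε * Real.sqrt n := by
  filter_upwards [log_div_tendsto.eventually (gt_mem_nhds hε), eventually_ge_atTop 1] with n h1 h2
  have h3 : (0 : ℝ) < Real.sqrt n := Real.sqrt_pos.2 (by exact_mod_cast h2)
  rw [div_lt_iff₀ h3] at h1
  exact h1.le

lemma P_le_sq : ∀ᶠ m : ℕ in atTop, P m ≤ m ^ 2 := by
  have hev : ∀ᶠ N : ℕ in atTop, Real.sqrt N ≤ Nat.primeCounting N := by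
    filter_upwards [log_le_sqrt (ε := 1 / 4) (by norm_num), eventually_ge_atTop 16] with N h1 h2
    refine le_trans ?_ (Chebyshev.pi_ge N)
    have h2r : (16 : ℝ) ≤ N := by exact_mod_cast h2
    have hl0 : 0 < Real.log N := Real.log_pos (by linarith)
    rw [le_div_iff₀ hl0]
    have hs : Real.sqrt N * Real.sqrt N = N := Real.mul_self_sqrt (by linarith)
    have h3 : Real.log ((N : ℝ) + 1) ≤ Real.log N + 1 / N := by
      rw [show (N : ℝ) + 1 = N * (1 + 1 / N) by field_simp, Real.log_mul (by linarith) (by positivity)]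
      have := Real.log_le_sub_one_of_pos (x := 1 + 1 / (N : ℝ)) (by positivity)
      linarith
    have h4 : (1 : ℝ) / N ≤ 1 := by
      rw [div_le_one (by linarith)]
      linarith
    have h5 := Real.log_two_gt_d9
    have h6 : (4 : ℝ) ≤ Real.sqrt N := by
      rw [show (4 : ℝ) = Real.sqrt 16 by rw [show (16 : ℝ) = 4 ^ 2 by norm_num, Real.sqrt_sq (by norm_num)]]
      exact Real.sqrt_le_sqrt h2r
    have h7 : Real.sqrt N * Real.log N ≤ Real.sqrt N * (1 / 4 * Real.sqrt N) := by gcongr
    nlinarith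
  obtain ⟨N₀, hN₀⟩ := eventually_atTop.1 hev
  filter_upwards [eventually_ge_atTop (max N₀ 1)] with m hm
  have hm1 : 1 ≤ m := le_trans (le_max_right _ _) hm
  have hP : N₀ ≤ P m := by
    have := le_P hm1
    have := le_trans (le_max_left N₀ 1) hm
    omega
  have h1 := hN₀ (P m) hP
  rw [pi_P hm1] at h1
  have h2 : (P m : ℝ) ≤ (m : ℝ) ^ 2 := by
    have h3 : Real.sqrt (P m) ^ 2 ≤ (m : ℝ) ^ 2 := by
      have := Real.sqrt_nonneg (P m : ℝ)
      gcongr
    rwa [Real.sq_sqrt (Nat.cast_nonneg _)] at h3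
  exact_mod_cast h2

lemma log_ge_one {i : ℕ} (hi : 1 ≤ i) : 1 ≤ Real.log ((i : ℝ) + 2) := by
  have h1 : (1 : ℝ) ≤ i := by exact_mod_cast hi
  rw [Real.le_log_iff_exp_le (by linarith)]
  have := Real.exp_one_lt_d9
  linarith

lemma sum_inv_log : ∀ᶠ x : ℕ in atTop, ∑ i ∈ Icc 1 x, 1 / Real.log ((i : ℝ) + 2) ≤ 3 * (x / Real.log x) := by
  filter_upwards [log_le_sqrt (ε := 1) (by norm_num), eventually_ge_atTop 16] with x h1 h2
  have h2r : (16 : ℝ) ≤ x := by exact_mod_cast h2
  have hl0 : 0 < Real.log x := Real.log_pos (by linarith)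
  have hs : Real.sqrt x * Real.sqrt x = x := Real.mul_self_sqrt (by linarith)
  have hs0 : 0 < Real.sqrt x := Real.sqrt_pos.2 (by linarith)
  set r := Nat.sqrt x with hr
  have hr2 : r * r ≤ x := Nat.sqrt_le x
  have hr3 : x < (r + 1) * (r + 1) := Nat.lt_succ_sqrt x
  have hrs : (r : ℝ) ≤ Real.sqrt x := Real.nat_sqrt_le_real_sqrt
  have hterm : ∀ i ∈ Icc 1 x, 1 / Real.log ((i : ℝ) + 2) ≤ (if i ≤ r then 1 else 0) + 2 / Real.log x := by
    intro i hi
    rw [mem_Icc] at hi
    have h3 := log_ge_one hi.1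
    split_ifs with h
    · have h4 : 1 / Real.log ((i : ℝ) + 2) ≤ 1 := by
        rw [div_le_one (by linarith)]
        exact h3
      have h5 : 0 < 2 / Real.log x := by positivity
      linarith
    · push Not at h
      rw [zero_add, div_le_div_iff₀ (by linarith) hl0, one_mul]
      have h5 : (x : ℝ) ≤ ((i : ℝ) + 2) ^ 2 := by
        have h6 : x ≤ (i + 2) ^ 2 := by nlinarith
        exact_mod_cast h6
      have h6 := Real.log_le_log (by linarith) h5
      rw [Real.log_pow] at h6
      push_cast at h6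
      exact h6
  calc ∑ i ∈ Icc 1 x, 1 / Real.log ((i : ℝ) + 2) ≤ ∑ i ∈ Icc 1 x, ((if i ≤ r then (1 : ℝ) else 0) + 2 / Real.log x) :=
        Finset.sum_le_sum hterm
    _ = (#((Icc 1 x).filter fun i => i ≤ r) : ℝ) + x * (2 / Real.log x) := by
        rw [Finset.sum_add_distrib, Finset.sum_boole, Finset.sum_const, Nat.card_Icc, nsmul_eq_mul]
        simp
    _ ≤ r + x * (2 / Real.log x) := by
        have h7 : #((Icc 1 x).filter fun i => i ≤ r) ≤ r := by
          have : (Icc 1 x).filter (fun i => i ≤ r) ⊆ Icc 1 r := by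
            intro i hi
            rw [mem_filter, mem_Icc] at hi
            rw [mem_Icc]
            omega
          simpa using Finset.card_le_card this
        have : (#((Icc 1 x).filter fun i => i ≤ r) : ℝ) ≤ r := by exact_mod_cast h7
        linarith
    _ ≤ x / Real.log x + x * (2 / Real.log x) := by
        have h8 : Real.sqrt x ≤ x / Real.log x := by
          rw [le_div_iff₀ hl0]
          nlinarith
        linarith
    _ = 3 * (x / Real.log x) := by ring

lemma pi_le : ∀ᶠ n : ℕ in atTop, (Nat.primeCounting n : ℝ) ≤ 2 * (n / Real.log n) := by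
  have h1 := (Chebyshev.eventually_primeCounting_le (ε := 1 / 2) (by norm_num)).natCast_atTop
  filter_upwards [h1, eventually_ge_atTop 2] with n h2 h3
  rw [Nat.floor_natCast] at h2
  refine h2.trans ?_
  have h4 : Real.log 4 ≤ 1.39 := by
    rw [show (4 : ℝ) = 2 ^ 2 by norm_num, Real.log_pow]
    have := Real.log_two_lt_d9
    push_cast
    linarith
  have h5 : (2 : ℝ) ≤ n := by exact_mod_cast h3
  have h6 : 0 < Real.log n := Real.log_pos (by linarith)
  rw [mul_div_assoc]
  have h7 : (0 : ℝ) ≤ n / Real.log n := by positivity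
  nlinarith

end Pool.Agent.T9h55.RM
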