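import Pool.Agent.T9h55.RM.Chern
import Pool.Agent.T9h55.RM.Num

/-! The number of the representations `n = k + m` in the random model (helper55). -/

set_option autoImplicit false

namespace Pool.Agent.T9h55.RM

open Finset MeasureTheory ProbabilityTheory Filter

/-- the group of a representation -/
noncomputable def G3 (n m : ℕ) : Finset ℕ := {n - m, m, P m}

/-- the first two members -/
def G2 (n m : ℕ) : Finset ℕ := {n - m, m}

lemma mem_G3 {n m j : ℕ} : j ∈ G3 n m ↔ j = n - m ∨ j = m ∨ j = P m := by simp [G3]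

lemma mem_G2 {n m j : ℕ} : j ∈ G2 n m ↔ j = n - m ∨ j = m := by simp [G2]

lemma disj3 {n : ℕ} {s : Finset ℕ} (h1 : ∀ m ∈ s, 1 ≤ m ∧ m < n) (h2 : ∀ m ∈ s, n ≤ P m)
    (h3 : ∀ m ∈ s, ∀ m' ∈ s, n - m ≠ m') : (s : Set ℕ).PairwiseDisjoint (G3 n) := by
  intro m hm m' hm' hne
  rw [Function.onFun, Finset.disjoint_left]
  intro j hj hj'
  rw [mem_G3] at hj hj'
  have a1 := h1 m hm
  have a2 := h1 m' hm'
  have b1 := h2 m hm
  have b2 := h2 m' hm'
  have c1 := h3 m hm m' hm'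
  have c2 := h3 m' hm' m hm
  have d1 : P m ≠ P m' := fun h => hne (P_inj a1.1 a2.1 h)
  rcases hj with rfl | rfl | rfl <;> rcases hj' with h | h | h <;> omega

lemma disj2 {n : ℕ} {s : Finset ℕ} (h1 : ∀ m ∈ s, 1 ≤ m ∧ m < n)
    (h3 : ∀ m ∈ s, ∀ m' ∈ s, n - m ≠ m') : (s : Set ℕ).PairwiseDisjoint (G2 n) := by
  intro m hm m' hm' hne
  rw [Function.onFun, Finset.disjoint_left]
  intro j hj hj'
  rw [mem_G2] at hj hj'
  have a1 := h1 m hm
  have a2 := h1 m' hm'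
  have c1 := h3 m hm m' hm'
  have c2 := h3 m' hm' m hm
  rcases hj with rfl | rfl <;> rcases hj' with h | h <;> omega

lemma prod3 {n m : ℕ} (h1 : 1 ≤ m ∧ m < n) (h2 : n ≤ P m) (h3 : n - m ≠ m) (f : ℕ → ℝ) :
    ∏ j ∈ G3 n m, f j = f (n - m) * (f m * f (P m)) := by
  unfold G3
  rw [Finset.prod_insert, Finset.prod_insert, Finset.prod_singleton]
  · rw [mem_singleton]
    omega
  · simp only [mem_insert, mem_singleton]
    omega

lemma prod2 {n m : ℕ} (h3 : n - m ≠ m) (f : ℕ → ℝ) :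
    ∏ j ∈ G2 n m, f j = f (n - m) * f m := by
  unfold G2
  rw [Finset.prod_insert, Finset.prod_singleton]
  rw [mem_singleton]
  exact h3

variable {Ω : Type*} [MeasurableSpace Ω] {μ : Measure Ω}

open Classical in
/-- the number of the representations `n = k + m` -/
noncomputable def rep (E : ℕ → Set Ω) (n : ℕ) (ω : Ω) : ℕ :=
  #((Ioo 0 n).filter fun m => ω ∈ E (n - m) ∧ ω ∈ E m ∧ ω ∈ E (P m))

lemma cnt_le_rep (E : ℕ → Set Ω) {n : ℕ} {s : Finset ℕ} (h1 : ∀ m ∈ s, 1 ≤ m ∧ m < n) (ω : Ω) :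
    cnt E (G3 n) s ω ≤ rep E n ω := by
  classical
  unfold cnt rep
  apply Finset.card_le_card
  intro m hm
  rw [mem_filter] at hm ⊢
  have h2 := h1 m hm.1
  refine ⟨by rw [mem_Ioo]; omega, ?_⟩
  have h3 := mem_Gr.1 hm.2
  exact ⟨h3 _ (mem_G3.2 (Or.inl rfl)), h3 _ (mem_G3.2 (Or.inr (Or.inl rfl))), h3 _ (mem_G3.2 (Or.inr (Or.inr rfl)))⟩

/-- the ranges of `m` -/
def s0 (n : ℕ) : Finset ℕ := Ioc (n / 2) (3 * n / 4)
def s1 (n : ℕ) : Finset ℕ := Ioo (n / 2) n
noncomputable def s2 (n : ℕ) : Finset ℕ := (Ioo 0 n).filter fun m => Nat.primeCounting n < m ∧ m < n - m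
noncomputable def s3 (n : ℕ) : Finset ℕ := (Ioo 0 n).filter fun m => m ≤ Nat.primeCounting n ∧ m < n - m

lemma rep_le (E : ℕ → Set Ω) (n : ℕ) (ω : Ω) :
    rep E n ω ≤ cnt E (G3 n) (s1 n) ω + cnt E (G3 n) (s2 n) ω + cnt E (G2 n) (s3 n) ω + 1 := by
  classical
  unfold rep cnt
  have h : ((Ioo 0 n).filter fun m => ω ∈ E (n - m) ∧ ω ∈ E m ∧ ω ∈ E (P m)) ⊆
      ((((s1 n).filter fun m => ω ∈ Gr E (G3 n) m) ∪ ((s2 n).filter fun m => ω ∈ Gr E (G3 n) m)) ∪
        ((s3 n).filter fun m => ω ∈ Gr E (G2 n) m)) ∪ {n / 2} := by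
    intro m hm
    rw [mem_filter, mem_Ioo] at hm
    obtain ⟨⟨h1, h2⟩, h3, h4, h5⟩ := hm
    have hG3 : ω ∈ Gr E (G3 n) m := by
      rw [mem_Gr]
      intro j hj
      rw [mem_G3] at hj
      rcases hj with rfl | rfl | rfl <;> assumption
    have hG2 : ω ∈ Gr E (G2 n) m := by
      rw [mem_Gr]
      intro j hj
      rw [mem_G2] at hj
      rcases hj with rfl | rfl <;> assumption
    simp only [mem_union, mem_filter, mem_singleton, s1, s2, s3, mem_Ioo]
    rcases lt_trichotomy m (n / 2) with h | h | h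
    · rcases Nat.lt_or_ge (Nat.primeCounting n) m with h6 | h6
      · exact Or.inl (Or.inl (Or.inr ⟨⟨⟨h1, h2⟩, h6, by omega⟩, hG3⟩))
      · exact Or.inl (Or.inr ⟨⟨⟨h1, h2⟩, h6, by omega⟩, hG2⟩)
    · exact Or.inr h
    · exact Or.inl (Or.inl (Or.inl ⟨⟨h, h2⟩, hG3⟩))
  refine (Finset.card_le_card h).trans ?_
  refine (Finset.card_union_le _ _).trans ?_
  rw [Finset.card_singleton]
  gcongr
  refine (Finset.card_union_le _ _).trans ?_
  gcongr
  exact Finset.card_union_le _ _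

/-- the lower bound for one `n` -/
lemma low_one [IsProbabilityMeasure μ] {E : ℕ → Set Ω} (hE : ∀ j, MeasurableSet (E j)) (hind : iIndepSet E μ)
    {c : ℝ} (hc : 0 < c) (hlo : ∀ᶠ j : ℕ in atTop, c / Real.log ((j : ℝ) + 2) ≤ μ.real (E j)) :
    ∀ᶠ n : ℕ in atTop, μ.real {ω | (rep E n ω : ℝ) ≤ c ^ 3 / 64 * (n / Real.log n ^ 3)} ≤
      Real.exp (-(c ^ 3 / 48 * (n / Real.log n ^ 3))) := by
  obtain ⟨j₀, hj₀⟩ := eventually_atTop.1 hlo
  obtain ⟨m₀, hm₀⟩ := eventually_atTop.1 P_le_sq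
  filter_upwards [eventually_ge_atTop (4 * j₀ + 2 * m₀ + 40)] with n hn
  have hnr : (40 : ℝ) ≤ n := by
    have : 40 ≤ n := by omega
    exact_mod_cast this
  set L := Real.log n with hL
  have hL0 : 0 < L := Real.log_pos (by linarith)
  have hmem : ∀ m ∈ s0 n, n < 2 * m ∧ 4 * m ≤ 3 * n := by
    intro m hm
    rw [s0, mem_Ioc] at hm
    omega
  have h1 : ∀ m ∈ s0 n, 1 ≤ m ∧ m < n := by
    intro m hm
    have := hmem m hm
    omega
  have h2 : ∀ m ∈ s0 n, n ≤ P m := by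
    intro m hm
    have := hmem m hm
    have := le_P (h1 m hm).1
    omega
  have h3 : ∀ m ∈ s0 n, ∀ m' ∈ s0 n, n - m ≠ m' := by
    intro m hm m' hm'
    have := hmem m hm
    have := hmem m' hm'
    omega
  have hprod : ∀ m ∈ s0 n, c ^ 3 / (2 * L ^ 3) ≤ ∏ j ∈ G3 n m, μ.real (E j) := by
    intro m hm
    have hm1 := hmem m hm
    have hm2 := h1 m hm
    have hm3 := h2 m hm
    rw [prod3 hm2 hm3 (h3 m hm m hm)]
    have e1 : c / L ≤ μ.real (E (n - m)) := by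
      refine le_trans ?_ (hj₀ (n - m) (by omega))
      have h4 : (((n - m : ℕ) : ℝ) + 2) ≤ n := by
        have : n - m + 2 ≤ n := by omega
        exact_mod_cast this
      have h5 : 1 ≤ Real.log (((n - m : ℕ) : ℝ) + 2) := log_ge_one (by omega)
      exact div_le_div_of_nonneg_left hc.le (by linarith) (Real.log_le_log (by positivity) h4)
    have e2 : c / L ≤ μ.real (E m) := by
      refine le_trans ?_ (hj₀ m (by omega))
      have h4 : ((m : ℝ) + 2) ≤ n := by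
        have : m + 2 ≤ n := by omega
        exact_mod_cast this
      have h5 : 1 ≤ Real.log ((m : ℝ) + 2) := log_ge_one (by omega)
      exact div_le_div_of_nonneg_left hc.le (by linarith) (Real.log_le_log (by positivity) h4)
    have e3 : c / (2 * L) ≤ μ.real (E (P m)) := by
      refine le_trans ?_ (hj₀ (P m) (by omega))
      have h4 : ((P m : ℝ) + 2) ≤ (n : ℝ) ^ 2 := by
        have h6 := hm₀ m (by omega)
        have : P m + 2 ≤ n ^ 2 := by nlinarith
        exact_mod_cast this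
      have h5 : 1 ≤ Real.log ((P m : ℝ) + 2) := log_ge_one (by omega)
      have h7 := Real.log_le_log (by positivity) h4
      rw [Real.log_pow] at h7
      push_cast at h7
      exact div_le_div_of_nonneg_left hc.le (by linarith) h7
    calc c ^ 3 / (2 * L ^ 3) = c / L * (c / L * (c / (2 * L))) := by field_simp
      _ ≤ μ.real (E (n - m)) * (μ.real (E m) * μ.real (E (P m))) := by gcongr
  have hcard : (n : ℝ) / 8 ≤ #(s0 n) := by
    rw [s0, Nat.card_Ioc]
    have h4 : n ≤ 8 * (3 * n / 4 - n / 2) := by omega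
    have h5 : (n : ℝ) ≤ 8 * ((3 * n / 4 - n / 2 : ℕ) : ℝ) := by exact_mod_cast h4
    linarith
  have hv : c ^ 3 / 16 * (n / L ^ 3) ≤ ∑ m ∈ s0 n, ∏ j ∈ G3 n m, μ.real (E j) := by
    calc c ^ 3 / 16 * (n / L ^ 3) = (n : ℝ) / 8 * (c ^ 3 / (2 * L ^ 3)) := by field_simp; ring
      _ ≤ #(s0 n) * (c ^ 3 / (2 * L ^ 3)) := by gcongr
      _ = ∑ m ∈ s0 n, c ^ 3 / (2 * L ^ 3) := by rw [Finset.sum_const, nsmul_eq_mul]
      _ ≤ _ := Finset.sum_le_sum hprod
  have hmain := chern_low hE hind (s0 n) (G3 n) (disj3 h1 h2 h3) (by positivity) hv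
  refine le_trans (measureReal_mono ?_ (measure_ne_top μ _)) (hmain.trans (le_of_eq ?_))
  · intro ω hω
    simp only [Set.mem_ofPred_eq] at hω ⊢
    have h4 : (cnt E (G3 n) (s0 n) ω : ℝ) ≤ rep E n ω := by exact_mod_cast cnt_le_rep E h1 ω
    calc (cnt E (G3 n) (s0 n) ω : ℝ) ≤ rep E n ω := h4
      _ ≤ _ := hω
      _ = _ := by ring
  · congr 1
    ring

end Pool.Agent.T9h55.RM
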