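import Pool.Agent.T9h55.RM.LawB

/-! Representations `n = k + m` with small `m` in the random model (helper55). -/

set_option autoImplicit false

namespace Pool.Agent.T9h55.RM

open Finset MeasureTheory ProbabilityTheory Filter

variable {Ω : Type*} [MeasurableSpace Ω] {μ : Measure Ω}

open Classical in
/-- the number of the representations with `m ≤ M` -/
noncomputable def repM (E : ℕ → Set Ω) (n M : ℕ) (ω : Ω) : ℕ :=
  #((Ioc 0 M).filter fun m => ω ∈ E (n - m) ∧ ω ∈ E m ∧ ω ∈ E (P m))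

lemma disj3' {n M : ℕ} {s : Finset ℕ} (h1 : ∀ m ∈ s, 1 ≤ m ∧ m ≤ M) (h2 : ∀ m ∈ s, M < P m ∧ P m + M < n) :
    (s : Set ℕ).PairwiseDisjoint (G3 n) := by
  intro m hm m' hm' hne
  rw [Function.onFun, Finset.disjoint_left]
  intro j hj hj'
  rw [mem_G3] at hj hj'
  have a1 := h1 m hm
  have a2 := h1 m' hm'
  have b1 := h2 m hm
  have b2 := h2 m' hm'
  have d1 : P m ≠ P m' := fun h => hne (P_inj a1.1 a2.1 h)
  rcases hj with rfl | rfl | rfl <;> rcases hj' with h | h | h <;> omega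

lemma prod3' {n m M : ℕ} (h1 : 1 ≤ m ∧ m ≤ M) (h2 : M < P m ∧ P m + M < n) (f : ℕ → ℝ) :
    ∏ j ∈ G3 n m, f j = f (n - m) * (f m * f (P m)) := by
  unfold G3
  rw [Finset.prod_insert, Finset.prod_insert, Finset.prod_singleton]
  · rw [mem_singleton]
    omega
  · simp only [mem_insert, mem_singleton]
    omega

lemma log_mono_inv {c : ℝ} (hc : 0 ≤ c) {j : ℕ} (hj : 1 ≤ j) {x k : ℝ} (h : (j : ℝ) + 2 ≤ x ^ 2)
    (hk : k = Real.log x) : c / (2 * k) ≤ c / Real.log ((j : ℝ) + 2) := by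
  subst hk
  have h5 : 1 ≤ Real.log ((j : ℝ) + 2) := log_ge_one hj
  refine div_le_div_of_nonneg_left hc (by linarith) ?_
  have h7 := Real.log_le_log (by positivity) h
  rw [Real.log_pow] at h7
  push_cast at h7
  exact h7

/-- the lower bound for one `n` and `M` -/
lemma low_M [IsProbabilityMeasure μ] {E : ℕ → Set Ω} (hE : ∀ j, MeasurableSet (E j)) (hind : iIndepSet E μ)
    {c : ℝ} (hc : 0 < c) (hlo : ∀ᶠ j : ℕ in atTop, c / Real.log ((j : ℝ) + 2) ≤ μ.real (E j)) :
    ∃ M₀ : ℕ, ∀ n M : ℕ, M₀ ≤ M → 4 * M ^ 2 ≤ n →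
      μ.real {ω | (repM E n M ω : ℝ) ≤ c ^ 3 / 128 * (M / (Real.log n * Real.log M ^ 2))} ≤
      Real.exp (-(c ^ 3 / 96 * (M / (Real.log n * Real.log M ^ 2)))) := by
  classical
  obtain ⟨j₀, hj₀⟩ := eventually_atTop.1 hlo
  obtain ⟨m₀, hm₀⟩ := eventually_atTop.1 P_le_sq
  refine ⟨2 * j₀ + 2 * m₀ + 20, fun n M hM hn => ?_⟩
  have hMr : (20 : ℝ) ≤ M := by
    have : 20 ≤ M := by omega
    exact_mod_cast this
  have hMM : M * 20 ≤ M * M := Nat.mul_le_mul_left M (by omega)
  have hnM : 4 * (M * M) ≤ n := by rw [← pow_two]; exact hn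
  have hnr : (20 : ℝ) ≤ n := by
    have : 20 ≤ n := by nlinarith
    exact_mod_cast this
  set L := Real.log n with hL
  set K := Real.log M with hK
  have hL0 : 0 < L := Real.log_pos (by linarith)
  have hK0 : 0 < K := Real.log_pos (by linarith)
  set s := Ioc (M / 2 + 1) M with hs
  have hmem : ∀ m ∈ s, M + 1 ≤ 2 * m ∧ M + 2 ≤ 2 * m ∧ m ≤ M := by
    intro m hm
    rw [hs, mem_Ioc] at hm
    omega
  have h1 : ∀ m ∈ s, 1 ≤ m ∧ m ≤ M := by
    intro m hm
    have := hmem m hm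
    omega
  have h2 : ∀ m ∈ s, M < P m ∧ P m + M < n := by
    intro m hm
    have h3 := hmem m hm
    have h4 := le_P (h1 m hm).1
    have h5 := hm₀ m (by omega)
    have h6 : m ^ 2 ≤ M * M := by
      rw [pow_two]
      exact Nat.mul_le_mul (h1 m hm).2 (h1 m hm).2
    refine ⟨by omega, by omega⟩
  have hprod : ∀ m ∈ s, c ^ 3 / (8 * (L * K ^ 2)) ≤ ∏ j ∈ G3 n m, μ.real (E j) := by
    intro m hm
    have hm1 := hmem m hm
    have hm2 := h1 m hm
    have hm3 := h2 m hm
    rw [prod3' hm2 hm3]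
    have e1 : c / (2 * L) ≤ μ.real (E (n - m)) := by
      refine le_trans (log_mono_inv hc.le (j := n - m) (by omega) (x := n) ?_ hL) (hj₀ (n - m) (by omega))
      have : n - m + 2 ≤ n ^ 2 := by nlinarith [Nat.sub_le n m]
      exact_mod_cast this
    have e2 : c / (2 * K) ≤ μ.real (E m) := by
      refine le_trans (log_mono_inv hc.le (j := m) (by omega) (x := M) ?_ hK) (hj₀ m (by omega))
      have : m + 2 ≤ M ^ 2 := by nlinarith
      exact_mod_cast this
    have e3 : c / (2 * K) ≤ μ.real (E (P m)) := by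
      refine le_trans (log_mono_inv hc.le (j := P m) (by omega) (x := M) ?_ hK) (hj₀ (P m) (by omega))
      have h6 := hm₀ m (by omega)
      have h7 : P m + 2 ≤ M ^ 2 ∨ M ^ 2 < P m + 2 := by omega
      rcases h7 with h7 | h7
      · exact_mod_cast h7
      · exfalso
        have h8 : P m ≤ P M := by
          rcases Nat.lt_or_ge m M with h | h
          · exact (P_lt hm2.1 h).le
          · have : m = M := by omega
            rw [this]
        have h9 := hm₀ M (by omega)
        -- a prime is not a square or a square minus one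
        have h10 : P m = M ^ 2 ∨ P m = M ^ 2 - 1 := by
          have : m ^ 2 ≤ M ^ 2 := Nat.pow_le_pow_left hm2.2 2
          omega
        rcases h10 with h | h
        · have := (P_prime m)
          rw [h] at this
          exact (Nat.Prime.not_prime_pow (by norm_num)) this
        · have hp := P_prime m
          rw [h, show M ^ 2 - 1 = (M + 1) * (M - 1) by
            have := Nat.sq_sub_sq M 1
            simpa using this] at hp
          exact Nat.not_prime_mul (by omega) (by omega) hp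
    calc c ^ 3 / (8 * (L * K ^ 2)) = c / (2 * L) * (c / (2 * K) * (c / (2 * K))) := by field_simp; ring
      _ ≤ μ.real (E (n - m)) * (μ.real (E m) * μ.real (E (P m))) := by gcongr
  have hcard : (M : ℝ) / 4 ≤ #s := by
    rw [hs, Nat.card_Ioc]
    have h4 : M ≤ 4 * (M - (M / 2 + 1)) := by omega
    have h5 : (M : ℝ) ≤ 4 * ((M - (M / 2 + 1) : ℕ) : ℝ) := by exact_mod_cast h4
    linarith
  have hv : c ^ 3 / 32 * (M / (L * K ^ 2)) ≤ ∑ m ∈ s, ∏ j ∈ G3 n m, μ.real (E j) := by
    calc c ^ 3 / 32 * (M / (L * K ^ 2)) = (M : ℝ) / 4 * (c ^ 3 / (8 * (L * K ^ 2))) := by field_simp; ring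
      _ ≤ #s * (c ^ 3 / (8 * (L * K ^ 2))) := by gcongr
      _ = ∑ m ∈ s, c ^ 3 / (8 * (L * K ^ 2)) := by rw [Finset.sum_const, nsmul_eq_mul]
      _ ≤ _ := Finset.sum_le_sum hprod
  have hmain := chern_low hE hind s (G3 n) (disj3' h1 h2) (by positivity) hv
  refine le_trans (measureReal_mono ?_ (measure_ne_top μ _)) (hmain.trans (le_of_eq ?_))
  · intro ω hω
    simp only [Set.mem_ofPred_eq] at hω ⊢
    have h3 : cnt E (G3 n) s ω ≤ repM E n M ω := by
      unfold cnt repM
      apply Finset.card_le_card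
      intro m hm
      rw [mem_filter] at hm ⊢
      have h2 := h1 m hm.1
      refine ⟨by rw [mem_Ioc]; omega, ?_⟩
      have h3 := mem_Gr.1 hm.2
      exact ⟨h3 _ (mem_G3.2 (Or.inl rfl)), h3 _ (mem_G3.2 (Or.inr (Or.inl rfl))), h3 _ (mem_G3.2 (Or.inr (Or.inr rfl)))⟩
    have h4 : (cnt E (G3 n) s ω : ℝ) ≤ repM E n M ω := by exact_mod_cast h3
    calc (cnt E (G3 n) s ω : ℝ) ≤ repM E n M ω := h4
      _ ≤ _ := hω
      _ = _ := by ring
  · congr 1
    ring

/-- the sums over `m ≤ M` -/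
lemma sums_M {C : ℝ} (hC : 0 < C) : ∃ M₀ : ℕ, ∀ M : ℕ, M₀ ≤ M → ∀ f : ℕ → ℝ, (∀ j, 0 ≤ f j) →
    (∀ j, 1 ≤ j → f j ≤ C / Real.log ((j : ℝ) + 2)) →
    ∑ m ∈ (Ioc 0 M).filter (fun m => Nat.primeCounting M < m), f m * f (P m) ≤ 12 * (C ^ 2 + C) * (M / Real.log M ^ 2) ∧
    ∑ m ∈ (Ioc 0 M).filter (fun m => m ≤ Nat.primeCounting M), f m ≤ 12 * (C ^ 2 + C) * (M / Real.log M ^ 2) := by
  have hev := sum_inv_log.and ((pi_tendsto.eventually sum_inv_log).and (pi_le.and (pi_ge_sqrt.and (eventually_ge_atTop 16))))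
  obtain ⟨M₀, hM₀⟩ := eventually_atTop.1 hev
  refine ⟨M₀, fun M hM f hf0 hf => ?_⟩
  obtain ⟨hs1, hs2, hpi, hpi2, h16⟩ := hM₀ M hM
  have hMr : (16 : ℝ) ≤ M := by exact_mod_cast h16
  set K := Real.log M with hK
  have hK0 : 0 < K := Real.log_pos (by linarith)
  have hsmall : ∀ j : ℕ, 1 ≤ j → 0 ≤ 1 / Real.log ((j : ℝ) + 2) := by
    intro j hj
    have := log_ge_one hj
    positivity
  have hx : 0 ≤ (M : ℝ) / K ^ 2 := by positivity
  have hC2 : 0 < C ^ 2 := by positivity
  constructor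
  · have hterm : ∀ m ∈ (Ioc 0 M).filter (fun m => Nat.primeCounting M < m),
        f m * f (P m) ≤ C ^ 2 / K * (1 / Real.log ((m : ℝ) + 2)) := by
      intro m hm
      rw [mem_filter, mem_Ioc] at hm
      have hm1 : 1 ≤ m := hm.1.1
      have h2 : M < P m := lt_P hm.2
      have e2 := hf m (by omega)
      have e3 : f (P m) ≤ C / K := by
        refine (hf (P m) (by omega)).trans ?_
        have h6 : (M : ℝ) ≤ (P m : ℝ) + 2 := by
          have : (M : ℝ) ≤ P m := by exact_mod_cast h2.le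
          linarith
        exact div_le_div_of_nonneg_left hC.le hK0 (Real.log_le_log (by linarith) h6)
      calc f m * f (P m) ≤ (C / Real.log ((m : ℝ) + 2)) * (C / K) := by
            have := hf0 m
            have := hf0 (P m)
            have := log_ge_one hm1
            gcongr
        _ = _ := by field_simp
    have hre : ∑ m ∈ (Ioc 0 M).filter (fun m => Nat.primeCounting M < m), 1 / Real.log ((m : ℝ) + 2) ≤
        ∑ m ∈ Icc 1 M, 1 / Real.log ((m : ℝ) + 2) := by
      refine Finset.sum_le_sum_of_subset_of_nonneg ?_ fun i hi _ => hsmall i (mem_Icc.1 hi).1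
      intro i hi
      rw [mem_filter, mem_Ioc] at hi
      rw [mem_Icc]
      omega
    calc _ ≤ ∑ m ∈ (Ioc 0 M).filter (fun m => Nat.primeCounting M < m), C ^ 2 / K * (1 / Real.log ((m : ℝ) + 2)) :=
          Finset.sum_le_sum hterm
      _ = C ^ 2 / K * ∑ m ∈ (Ioc 0 M).filter (fun m => Nat.primeCounting M < m), 1 / Real.log ((m : ℝ) + 2) := by
          rw [Finset.mul_sum]
      _ ≤ C ^ 2 / K * (3 * (M / K)) := mul_le_mul_of_nonneg_left (hre.trans hs1) (by positivity)
      _ = 3 * C ^ 2 * (M / K ^ 2) := by field_simp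
      _ ≤ _ := by nlinarith
  · have hterm : ∀ m ∈ (Ioc 0 M).filter (fun m => m ≤ Nat.primeCounting M),
        f m ≤ C * (1 / Real.log ((m : ℝ) + 2)) := by
      intro m hm
      rw [mem_filter, mem_Ioc] at hm
      refine (hf m (by omega)).trans (le_of_eq (by ring))
    have hre : ∑ m ∈ (Ioc 0 M).filter (fun m => m ≤ Nat.primeCounting M), 1 / Real.log ((m : ℝ) + 2) ≤
        ∑ m ∈ Icc 1 (Nat.primeCounting M), 1 / Real.log ((m : ℝ) + 2) := by
      refine Finset.sum_le_sum_of_subset_of_nonneg ?_ fun i hi _ => hsmall i (mem_Icc.1 hi).1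
      intro i hi
      rw [mem_filter, mem_Ioc] at hi
      rw [mem_Icc]
      omega
    calc _ ≤ ∑ m ∈ (Ioc 0 M).filter (fun m => m ≤ Nat.primeCounting M), C * (1 / Real.log ((m : ℝ) + 2)) :=
          Finset.sum_le_sum hterm
      _ = C * ∑ m ∈ (Ioc 0 M).filter (fun m => m ≤ Nat.primeCounting M), 1 / Real.log ((m : ℝ) + 2) := by
          rw [Finset.mul_sum]
      _ ≤ C * (3 * (Nat.primeCounting M / Real.log (Nat.primeCounting M))) :=
          mul_le_mul_of_nonneg_left (hre.trans hs2) (by positivity)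
      _ ≤ C * (3 * (2 * (M / K) / (K / 2))) := by gcongr
      _ = 12 * C * (M / K ^ 2) := by field_simp; ring
      _ ≤ _ := by nlinarith

end Pool.Agent.T9h55.RM
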