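import Pool.Agent.T9h55.RM.LeastA

/-! Representations `n = k + m` with small `m` in the random model: upper bound, law (helper55). -/

set_option autoImplicit false

namespace Pool.Agent.T9h55.RM

open Finset MeasureTheory ProbabilityTheory Filter

variable {Ω : Type*} [MeasurableSpace Ω] {μ : Measure Ω}

lemma up_M [IsProbabilityMeasure μ] {E : ℕ → Set Ω} (hE : ∀ j, MeasurableSet (E j)) (hind : iIndepSet E μ)
    {C : ℝ} (hC : 0 < C) (hup : ∀ j : ℕ, 1 ≤ j → μ.real (E j) ≤ C / Real.log ((j : ℝ) + 2)) :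
    ∃ M₀ : ℕ, ∀ n M : ℕ, M₀ ≤ M → 4 * M ^ 2 ≤ n →
      μ.real {ω | 8 * (24 * C * (C ^ 2 + C) * (M / (Real.log n * Real.log M ^ 2))) ≤ repM E n M ω} ≤
      2 * Real.exp (-(2 * (24 * C * (C ^ 2 + C) * (M / (Real.log n * Real.log M ^ 2))))) := by
  classical
  obtain ⟨M₁, hM₁⟩ := sums_M hC
  obtain ⟨m₀, hm₀⟩ := eventually_atTop.1 P_le_sq
  obtain ⟨M₂, hM₂⟩ := eventually_atTop.1 (pi_tendsto.eventually_ge_atTop m₀)
  refine ⟨M₁ + M₂ + m₀ + 20, fun n M hM hn => ?_⟩
  have hMr : (20 : ℝ) ≤ M := by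
    have : 20 ≤ M := by omega
    exact_mod_cast this
  have hMM : M * 20 ≤ M * M := Nat.mul_le_mul_left M (by omega)
  have hnM : 4 * (M * M) ≤ n := by rw [← pow_two]; exact hn
  have hnr : (20 : ℝ) ≤ n := by
    have : 20 ≤ n := by nlinarith
    exact_mod_cast this
  set L := Real.log n with hL
  set K := Real.log M with hK
  have hL0 : 0 < L := Real.log_pos (by linarith)
  have hK0 : 0 < K := Real.log_pos (by linarith)
  set f : ℕ → ℝ := fun j => μ.real (E j) with hf
  obtain ⟨u1, u2⟩ := hM₁ M (by omega) f (fun j => measureReal_nonneg) hup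
  set t1 := (Ioc 0 M).filter (fun m => Nat.primeCounting M < m) with ht1
  set t2 := (Ioc 0 M).filter (fun m => m ≤ Nat.primeCounting M) with ht2
  have hbig : ∀ m : ℕ, m ≤ M → f (n - m) ≤ 2 * C / L := by
    intro m hm
    refine (hup (n - m) (by omega)).trans ?_
    have h5 : 1 ≤ Real.log (((n - m : ℕ) : ℝ) + 2) := log_ge_one (by omega)
    rw [div_le_div_iff₀ (by linarith) hL0]
    have h6 : (n : ℝ) ≤ (((n - m : ℕ) : ℝ) + 2) ^ 2 := by
      have h8 : n ≤ 2 * (n - m) := by omega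
      have : n ≤ (n - m + 2) ^ 2 := by nlinarith
      exact_mod_cast this
    have h7 := Real.log_le_log (by linarith) h6
    rw [Real.log_pow] at h7
    push_cast at h7
    nlinarith
  have hm1 : ∀ m ∈ t1, 1 ≤ m ∧ m ≤ M := by
    intro m hm
    rw [ht1, mem_filter, mem_Ioc] at hm
    omega
  have hm2 : ∀ m ∈ t1, M < P m ∧ P m + M < n := by
    intro m hm
    rw [ht1, mem_filter, mem_Ioc] at hm
    have h3 := lt_P hm.2
    have h4 := hM₂ M (by omega)
    have h5 := hm₀ m (by omega)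
    have h6 : m ^ 2 ≤ M * M := by
      rw [pow_two]
      exact Nat.mul_le_mul hm.1.2 hm.1.2
    exact ⟨h3, by omega⟩
  have v1 : ∑ m ∈ t1, ∏ j ∈ G3 n m, f j ≤ 24 * C * (C ^ 2 + C) * (M / (L * K ^ 2)) := by
    calc ∑ m ∈ t1, ∏ j ∈ G3 n m, f j ≤ ∑ m ∈ t1, 2 * C / L * (f m * f (P m)) := by
          refine Finset.sum_le_sum fun m hm => ?_
          rw [prod3' (hm1 m hm) (hm2 m hm)]
          have h1 := hbig m (hm1 m hm).2
          have h2 : 0 ≤ f m * f (P m) := mul_nonneg measureReal_nonneg measureReal_nonneg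
          exact mul_le_mul_of_nonneg_right h1 h2
      _ = 2 * C / L * ∑ m ∈ t1, f m * f (P m) := by rw [Finset.mul_sum]
      _ ≤ 2 * C / L * (12 * (C ^ 2 + C) * (M / K ^ 2)) := mul_le_mul_of_nonneg_left u1 (by positivity)
      _ = _ := by field_simp; ring
  have v2 : ∑ m ∈ t2, ∏ j ∈ G2 n m, f j ≤ 24 * C * (C ^ 2 + C) * (M / (L * K ^ 2)) := by
    calc ∑ m ∈ t2, ∏ j ∈ G2 n m, f j ≤ ∑ m ∈ t2, 2 * C / L * f m := by
          refine Finset.sum_le_sum fun m hm => ?_
          rw [ht2, mem_filter, mem_Ioc] at hm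
          rw [prod2 (by omega)]
          exact mul_le_mul_of_nonneg_right (hbig m hm.1.2) measureReal_nonneg
      _ = 2 * C / L * ∑ m ∈ t2, f m := by rw [Finset.mul_sum]
      _ ≤ 2 * C / L * (12 * (C ^ 2 + C) * (M / K ^ 2)) := mul_le_mul_of_nonneg_left u2 (by positivity)
      _ = _ := by field_simp; ring
  set v := 24 * C * (C ^ 2 + C) * (M / (L * K ^ 2)) with hv
  have d1 : (t1 : Set ℕ).PairwiseDisjoint (G3 n) := disj3' hm1 hm2
  have d2 : (t2 : Set ℕ).PairwiseDisjoint (G2 n) := by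
    refine disj2 (fun m hm => ?_) fun m hm m' hm' => ?_
    · rw [ht2, mem_filter, mem_Ioc] at hm; omega
    · rw [ht2, mem_filter, mem_Ioc] at hm hm'; omega
  have w1 := chern_up hE hind t1 (G3 n) d1 v1
  have w2 := chern_up hE hind t2 (G2 n) d2 v2
  have hrep : ∀ ω, repM E n M ω ≤ cnt E (G3 n) t1 ω + cnt E (G2 n) t2 ω := by
    intro ω
    unfold repM cnt
    refine le_trans (Finset.card_le_card ?_) (Finset.card_union_le _ _)
    intro m hm
    rw [mem_filter, mem_Ioc] at hm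
    obtain ⟨⟨h1, h2⟩, h3, h4, h5⟩ := hm
    rw [mem_union]
    rcases Nat.lt_or_ge (Nat.primeCounting M) m with h6 | h6
    · left
      rw [mem_filter, ht1, mem_filter, mem_Ioc, mem_Gr]
      refine ⟨⟨⟨h1, h2⟩, h6⟩, fun j hj => ?_⟩
      rw [mem_G3] at hj
      rcases hj with rfl | rfl | rfl <;> assumption
    · right
      rw [mem_filter, ht2, mem_filter, mem_Ioc, mem_Gr]
      refine ⟨⟨⟨h1, h2⟩, h6⟩, fun j hj => ?_⟩
      rw [mem_G2] at hj
      rcases hj with rfl | rfl <;> assumption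
  have hsub : {ω | 8 * v ≤ (repM E n M ω : ℝ)} ⊆ {ω | 4 * v ≤ (cnt E (G3 n) t1 ω : ℝ)} ∪
      {ω | 4 * v ≤ (cnt E (G2 n) t2 ω : ℝ)} := by
    intro ω hω
    simp only [Set.mem_ofPred_eq, Set.mem_union] at hω ⊢
    by_contra hcon
    push Not at hcon
    have h5 : (repM E n M ω : ℝ) ≤ (cnt E (G3 n) t1 ω : ℝ) + (cnt E (G2 n) t2 ω : ℝ) := by exact_mod_cast hrep ω
    linarith
  calc μ.real {ω | 8 * v ≤ (repM E n M ω : ℝ)} ≤ _ := measureReal_mono hsub (measure_ne_top μ _)
    _ ≤ _ := measureReal_union_le _ _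
    _ ≤ Real.exp (-(2 * v)) + Real.exp (-(2 * v)) := by linarith
    _ = 2 * Real.exp (-(2 * v)) := by ring

lemma loglog_tendsto : Tendsto (fun n : ℕ => Real.log (Real.log n)) atTop atTop :=
  Real.tendsto_log_atTop.comp (Real.tendsto_log_atTop.comp tendsto_natCast_atTop_atTop)

/-- the size of `M / log ^ 2 M` above the threshold -/
lemma size_M {A : ℝ} (hA : 0 < A) : ∀ᶠ n : ℕ in atTop, ∀ M : ℕ,
    A * (Real.log n ^ 2 * Real.log (Real.log n) ^ 2) ≤ M → A / 9 * Real.log n ^ 2 ≤ M / Real.log M ^ 2 := by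
  have hll := loglog_tendsto
  have h1 : ∀ᶠ x : ℝ in atTop, Real.log A + 2 * Real.log x ≤ x := by
    have h2 := (Real.isLittleO_log_id_atTop).bound (c := 1 / 4) (by norm_num)
    filter_upwards [h2, eventually_ge_atTop (2 * |Real.log A| + 1)] with x hx hx1
    have hx0 : 0 < x := by have := abs_nonneg (Real.log A); linarith
    simp only [id, Real.norm_eq_abs] at hx
    rw [abs_of_pos hx0] at hx
    have h3 := le_abs_self (Real.log x)
    have h4 := le_abs_self (Real.log A)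
    linarith
  have hL : Tendsto (fun n : ℕ => Real.log n) atTop atTop := Real.tendsto_log_atTop.comp tendsto_natCast_atTop_atTop
  have h5 : ∀ᶠ n : ℕ in atTop, Real.exp 2 ≤ A * (Real.log n ^ 2 * Real.log (Real.log n) ^ 2) := by
    filter_upwards [hL.eventually_ge_atTop (Real.exp 2 / A + 1), hll.eventually_ge_atTop 1] with n ha hb
    have : 0 < Real.exp 2 / A := by positivity
    have e1 : Real.exp 2 ≤ A * Real.log n := by
      have := mul_le_mul_of_nonneg_left ha hA.le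
      rw [mul_add, mul_div_cancel₀ _ hA.ne'] at this
      linarith
    have e2 : Real.log n ≤ Real.log n ^ 2 * Real.log (Real.log n) ^ 2 := by
      have e3 : 1 ≤ Real.log n := by linarith
      have e4 : 1 ≤ Real.log (Real.log n) ^ 2 := by nlinarith
      have e5 : Real.log n ≤ Real.log n ^ 2 := by nlinarith
      nlinarith
    nlinarith
  filter_upwards [hll.eventually h1, h5, hL.eventually_ge_atTop 2, hll.eventually_ge_atTop 1] with n a1 a2 a3 a4 M hM
  set L := Real.log n with hLd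
  set l := Real.log L with hl
  set M0 := A * (L ^ 2 * l ^ 2) with hM0
  have hM0pos : 0 < M0 := lt_of_lt_of_le (Real.exp_pos _) a2
  have hMpos : (0 : ℝ) < M := lt_of_lt_of_le hM0pos hM
  have hanti := Real.log_div_sqrt_antitoneOn (show Real.exp 2 ≤ M0 from a2) (show Real.exp 2 ≤ (M : ℝ) from a2.trans hM) hM
  simp only at hanti
  have hlogM0 : Real.log M0 ≤ 3 * l := by
    rw [hM0, Real.log_mul hA.ne' (by positivity), Real.log_mul (by positivity) (by positivity), Real.log_pow, Real.log_pow]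
    push_cast
    linarith
  have hlogM0' : 2 ≤ Real.log M0 := by
    rw [Real.le_log_iff_exp_le hM0pos]
    exact a2
  have hlogM : 0 < Real.log M := by
    have := Real.log_le_log hM0pos hM
    linarith
  have hs0 : 0 < Real.sqrt M0 := Real.sqrt_pos.2 hM0pos
  have hs1 : 0 < Real.sqrt M := Real.sqrt_pos.2 hMpos
  have h6 : Real.log M * Real.sqrt M0 ≤ Real.log M0 * Real.sqrt M := by
    rwa [div_le_div_iff₀ hs1 hs0] at hanti
  have h7 : Real.log M ^ 2 * M0 ≤ Real.log M0 ^ 2 * M := by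
    have h8 : (Real.log M * Real.sqrt M0) ^ 2 ≤ (Real.log M0 * Real.sqrt M) ^ 2 :=
      pow_le_pow_left₀ (by positivity) h6 2
    rwa [mul_pow, mul_pow, Real.sq_sqrt hM0pos.le, Real.sq_sqrt hMpos.le] at h8
  rw [le_div_iff₀ (by positivity)]
  have h9 : Real.log M0 ^ 2 ≤ 9 * l ^ 2 := by
    have : Real.log M0 ^ 2 ≤ (3 * l) ^ 2 := pow_le_pow_left₀ (by linarith) hlogM0 2
    linarith
  have h10 : Real.log M ^ 2 * (A * (L ^ 2 * l ^ 2)) ≤ 9 * l ^ 2 * M := by
    calc Real.log M ^ 2 * (A * (L ^ 2 * l ^ 2)) = Real.log M ^ 2 * M0 := by rw [hM0]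
      _ ≤ Real.log M0 ^ 2 * M := h7
      _ ≤ 9 * l ^ 2 * M := by gcongr
  have hl2 : 0 < l ^ 2 := by positivity
  have h11 : l ^ 2 * (A / 9 * L ^ 2 * Real.log M ^ 2) ≤ l ^ 2 * M := by nlinarith
  exact le_of_mul_le_mul_left h11 hl2

/-- **Law for the representations with small `m`.** -/
theorem law_small [IsProbabilityMeasure μ] {E : ℕ → Set Ω} (hE : ∀ j, MeasurableSet (E j)) (hind : iIndepSet E μ)
    {c C A : ℝ} (hc : 0 < c) (hC : 0 < C) (hlo : ∀ᶠ j : ℕ in atTop, c / Real.log ((j : ℝ) + 2) ≤ μ.real (E j))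
    (hup : ∀ j : ℕ, 1 ≤ j → μ.real (E j) ≤ C / Real.log ((j : ℝ) + 2))
    (hA1 : 3 ≤ c ^ 3 / 96 * (A / 9)) (hA2 : 3 ≤ 2 * (24 * C * (C ^ 2 + C)) * (A / 9)) :
    ∀ᵐ ω ∂μ, ∀ᶠ n : ℕ in atTop, ∀ M : ℕ, A * (Real.log n ^ 2 * Real.log (Real.log n) ^ 2) ≤ M → 4 * M ^ 2 ≤ n →
      c ^ 3 / 128 * (M / (Real.log n * Real.log M ^ 2)) ≤ repM E n M ω ∧
      (repM E n M ω : ℝ) ≤ 8 * (24 * C * (C ^ 2 + C) * (M / (Real.log n * Real.log M ^ 2))) := by
  have hA : 0 < A := by
    by_contra h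
    push Not at h
    have : c ^ 3 / 96 * (A / 9) ≤ 0 := mul_nonpos_of_nonneg_of_nonpos (by positivity) (by linarith)
    linarith
  obtain ⟨M₁, hM₁⟩ := low_M hE hind hc hlo
  obtain ⟨M₂, hM₂⟩ := up_M hE hind hC hup
  set bad : ℕ → ℕ → Set Ω := fun n M => {ω | (repM E n M ω : ℝ) ≤ c ^ 3 / 128 * (M / (Real.log n * Real.log M ^ 2))} ∪
    {ω | 8 * (24 * C * (C ^ 2 + C) * (M / (Real.log n * Real.log M ^ 2))) ≤ repM E n M ω} with hbad
  set T : ℕ → Finset ℕ := fun n => (range (n + 1)).filter fun M =>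
    A * (Real.log n ^ 2 * Real.log (Real.log n) ^ 2) ≤ M ∧ 4 * M ^ 2 ≤ n with hT
  have hL : Tendsto (fun n : ℕ => Real.log n) atTop atTop := Real.tendsto_log_atTop.comp tendsto_natCast_atTop_atTop
  have hthr : ∀ᶠ n : ℕ in atTop, ((M₁ + M₂ + 2 : ℕ) : ℝ) ≤ A * (Real.log n ^ 2 * Real.log (Real.log n) ^ 2) := by
    filter_upwards [hL.eventually_ge_atTop (((M₁ + M₂ + 2 : ℕ) : ℝ) / A + 1), loglog_tendsto.eventually_ge_atTop 1] with n ha hb
    have h0 : (0 : ℝ) ≤ ((M₁ + M₂ + 2 : ℕ) : ℝ) / A := by positivity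
    have e1 : ((M₁ + M₂ + 2 : ℕ) : ℝ) ≤ A * Real.log n := by
      have := mul_le_mul_of_nonneg_left ha hA.le
      rw [mul_add, mul_div_cancel₀ _ hA.ne'] at this
      linarith
    have e2 : Real.log n ≤ Real.log n ^ 2 * Real.log (Real.log n) ^ 2 := by
      have e3 : 1 ≤ Real.log n := by linarith
      have e4 : 1 ≤ Real.log (Real.log n) ^ 2 := by nlinarith
      have e5 : Real.log n ≤ Real.log n ^ 2 := by nlinarith
      nlinarith
    nlinarith
  have hae := bc (μ := μ) (A := fun n => ⋃ M ∈ T n, bad n M) (B := 6) (by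
    filter_upwards [size_M hA, hthr, eventually_ge_atTop 3] with n hs ht hn
    have hnr : (3 : ℝ) ≤ n := by exact_mod_cast hn
    have hL0 : 0 < Real.log n := Real.log_pos (by linarith)
    have hone : ∀ M ∈ T n, μ.real (bad n M) ≤ 3 * (1 / (n : ℝ) ^ 3) := by
      intro M hM
      rw [hT, mem_filter] at hM
      obtain ⟨-, h1, h2⟩ := hM
      have h3 : ((M₁ + M₂ + 2 : ℕ) : ℝ) ≤ M := ht.trans h1
      have h3' : M₁ + M₂ + 2 ≤ M := by exact_mod_cast h3
      have h4 := hs M h1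
      have h5 : A / 9 * Real.log n ≤ M / (Real.log n * Real.log M ^ 2) := by
        have hMl : 0 < Real.log M := Real.log_pos (by
          have : (2 : ℝ) ≤ M := by
            have : 2 ≤ M := by omega
            exact_mod_cast this
          linarith)
        rw [le_div_iff₀ (by positivity)]
        rw [le_div_iff₀ (by positivity)] at h4
        nlinarith
      have hexp : ∀ b : ℝ, 0 ≤ b → 3 ≤ b * (A / 9) → Real.exp (-(b * (M / (Real.log n * Real.log M ^ 2)))) ≤ 1 / (n : ℝ) ^ 3 := by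
        intro b hb hb3
        calc Real.exp (-(b * (M / (Real.log n * Real.log M ^ 2)))) ≤ Real.exp (-(3 * Real.log n)) := by
              apply Real.exp_le_exp.2
              have h6 : b * (A / 9 * Real.log n) ≤ b * (M / (Real.log n * Real.log M ^ 2)) := mul_le_mul_of_nonneg_left h5 hb
              have h7 : 3 * Real.log n ≤ b * (A / 9) * Real.log n := mul_le_mul_of_nonneg_right hb3 hL0.le
              linarith
          _ = 1 / (n : ℝ) ^ 3 := by
            rw [Real.exp_neg, show 3 * Real.log n = Real.log ((n : ℝ) ^ 3) by rw [Real.log_pow]; push_cast; ring,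
              Real.exp_log (by positivity), one_div]
      have h6 := hM₁ n M (by omega) h2
      have h7 := hM₂ n M (by omega) h2
      have h8 := hexp (c ^ 3 / 96) (by positivity) hA1
      have h9 := hexp (2 * (24 * C * (C ^ 2 + C))) (by positivity) hA2
      rw [show 2 * (24 * C * (C ^ 2 + C)) * ((M : ℝ) / (Real.log n * Real.log M ^ 2)) =
        2 * (24 * C * (C ^ 2 + C) * (M / (Real.log n * Real.log M ^ 2))) by ring] at h9
      calc μ.real (bad n M) ≤ _ := measureReal_union_le _ _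
        _ ≤ 1 / (n : ℝ) ^ 3 + 2 * (1 / (n : ℝ) ^ 3) := by
            refine add_le_add (h6.trans h8) (h7.trans ?_)
            linarith
        _ = _ := by ring
    calc μ.real (⋃ M ∈ T n, bad n M) ≤ ∑ M ∈ T n, μ.real (bad n M) := measureReal_biUnion_finset_le _ _
      _ ≤ ∑ M ∈ T n, 3 * (1 / (n : ℝ) ^ 3) := Finset.sum_le_sum hone
      _ = #(T n) * (3 * (1 / (n : ℝ) ^ 3)) := by rw [Finset.sum_const, nsmul_eq_mul]
      _ ≤ (2 * n) * (3 * (1 / (n : ℝ) ^ 3)) := by
          have h1 : #(T n) ≤ n + 1 := (Finset.card_filter_le _ _).trans (by rw [card_range])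
          have h2 : (#(T n) : ℝ) ≤ n + 1 := by exact_mod_cast h1
          have h3 : (#(T n) : ℝ) ≤ 2 * n := by linarith
          exact mul_le_mul_of_nonneg_right h3 (by positivity)
      _ = 6 * (1 / (n : ℝ) ^ 2) := by field_simp; ring)
  filter_upwards [hae] with ω hω
  filter_upwards [hω] with n hn M hM1 hM2
  simp only [Set.mem_iUnion, not_exists] at hn
  have hMT : M ∈ T n := by
    rw [hT, mem_filter, mem_range]
    refine ⟨?_, hM1, hM2⟩
    have : M ≤ M ^ 2 := Nat.le_self_pow (by norm_num) M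
    omega
  have h1 := hn M hMT
  rw [hbad] at h1
  simp only [Set.mem_union, Set.mem_ofPred_eq, not_or, not_le] at h1
  exact ⟨h1.1.le, h1.2.le⟩

end Pool.Agent.T9h55.RM
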