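import Pool.Agent.T9h55.RM.LeastB

/-! Integers without a representation with small `m` in the random model (helper55). -/

set_option autoImplicit false

namespace Pool.Agent.T9h55.RM

open Finset MeasureTheory ProbabilityTheory Filter

variable {Ω : Type*} [MeasurableSpace Ω] {μ : Measure Ω}

lemma indep_compl {E : ℕ → Set Ω} (hE : ∀ j, MeasurableSet (E j)) (hind : iIndepSet E μ) :
    iIndepSet (fun j => (E j)ᶜ) μ := by
  rw [iIndepSet_iff_meas_biInter fun j => (hE j).compl]
  intro s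
  have h2 := hind.iIndepFun_indicator (β := ℝ) (m := inferInstance)
  have h3 := h2.measure_inter_preimage_eq_mul s (sets := fun _ => {0}) fun j _ => measurableSet_singleton _
  have e : ∀ j, (E j)ᶜ = (E j).indicator (fun _ => (1 : ℝ)) ⁻¹' {0} := by
    intro j
    ext ω
    by_cases h : ω ∈ E j <;> simp [h]
  simp only [e]
  exact h3

lemma real_compl [IsProbabilityMeasure μ] {E : Set Ω} (hE : MeasurableSet E) : μ.real Eᶜ = 1 - μ.real E :=
  probReal_compl_eq_one_sub hE

open Classical in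
/-- the set of the small `m` -/
noncomputable def BB (E : ℕ → Set Ω) (M : ℕ) (ω : Ω) : Finset ℕ := (Ioc 0 M).filter fun m => ω ∈ E m ∧ ω ∈ E (P m)

/-- every `n` of the list is hit -/
def WW (E : ℕ → Set Ω) (ν : ℕ → ℕ) (s b : Finset ℕ) : Set Ω := ⋂ i ∈ s, ⋃ m ∈ b, E (ν i - m)

/-- the σ-algebra of a block of events -/
def sig (E : ℕ → Set Ω) (S : Set ℕ) : MeasurableSpace Ω := MeasurableSpace.generateFrom {t | ∃ n ∈ S, E n = t}

lemma sig_mem {E : ℕ → Set Ω} {S : Set ℕ} {j : ℕ} (hj : j ∈ S) : MeasurableSet[sig E S] (E j) :=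
  MeasurableSpace.measurableSet_generateFrom ⟨j, hj, rfl⟩

lemma BB_meas {E : ℕ → Set Ω} {S : Set ℕ} {M : ℕ} (h1 : ∀ m, 1 ≤ m → m ≤ M → m ∈ S ∧ P m ∈ S) (b : Finset ℕ) :
    MeasurableSet[sig E S] {ω | BB E M ω = b} := by
  classical
  by_cases hb : b ⊆ Ioc 0 M
  · have e : {ω | BB E M ω = b} = ⋂ m ∈ Ioc 0 M, (if m ∈ b then E m ∩ E (P m) else (E m ∩ E (P m))ᶜ) := by
      ext ω
      simp only [Set.mem_ofPred_eq, Set.mem_iInter]
      constructor
      · intro h m hm
        split_ifs with h3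
        · rw [← h, BB, mem_filter] at h3
          exact h3.2
        · intro h4
          apply h3
          rw [← h, BB, mem_filter]
          exact ⟨hm, h4⟩
      · intro h
        ext m
        rw [BB, mem_filter]
        constructor
        · rintro ⟨h3, h4⟩
          have h5 := h m h3
          split_ifs at h5 with h6
          · exact h6
          · exact absurd h4 h5
        · intro h3
          have h4 := hb h3
          have h5 := h m h4
          rw [if_pos h3] at h5
          exact ⟨h4, h5⟩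
    rw [e]
    refine Finset.measurableSet_biInter _ fun m hm => ?_
    rw [mem_Ioc] at hm
    have h2 := h1 m hm.1 hm.2
    have h3 : MeasurableSet[sig E S] (E m ∩ E (P m)) := (sig_mem h2.1).inter (sig_mem h2.2)
    split_ifs
    · exact h3
    · exact h3.compl
  · have e : {ω | BB E M ω = b} = ∅ := by
      ext ω
      simp only [Set.mem_ofPred_eq, Set.mem_empty_iff_false, iff_false]
      intro h
      apply hb
      rw [← h, BB]
      exact filter_subset _ _
    rw [e]
    exact @MeasurableSet.empty Ω (sig E S)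

lemma WW_meas {E : ℕ → Set Ω} {S : Set ℕ} {ν : ℕ → ℕ} {s b : Finset ℕ}
    (h1 : ∀ i ∈ s, ∀ m ∈ b, ν i - m ∈ S) : MeasurableSet[sig E S] (WW E ν s b) := by
  unfold WW
  refine Finset.measurableSet_biInter _ fun i hi => ?_
  exact Finset.measurableSet_biUnion _ fun m hm => sig_mem (h1 i hi m hm)

/-- the probability that all members of the list are hit, if the set of the small `m` is small -/
lemma all_hit [IsProbabilityMeasure μ] {E : ℕ → Set Ω} (hE : ∀ j, MeasurableSet (E j)) (hind : iIndepSet E μ)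
    {N M : ℕ} (hP : ∀ m, 1 ≤ m → m ≤ M → m ≤ N ∧ P m ≤ N) (s : Finset ℕ) (ν : ℕ → ℕ)
    (hν : ∀ i ∈ s, N + M < ν i) (hν2 : ∀ i ∈ s, ∀ i' ∈ s, i < i' → ν i + M ≤ ν i') {Q v : ℝ} (hv0 : 0 ≤ v)
    (hv : ∀ b ⊆ Ioc 0 M, (#b : ℝ) < Q → v ≤ ∑ i ∈ s, ∏ m ∈ b, (1 - μ.real (E (ν i - m)))) :
    μ.real {ω | (#(BB E M ω) : ℝ) < Q ∧ ω ∈ WW E ν s (BB E M ω)} ≤ Real.exp (-(v / 3)) := by
  classical
  have hblock := hind.indep_generateFrom_of_disjoint hE (Set.Iic N) (Set.Ioi N)
    (Set.disjoint_left.2 fun x h1 h2 => absurd (Set.mem_Iic.1 h1) (not_le.2 (Set.mem_Ioi.1 h2)))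
  have hI := Indep_iff (sig E (Set.Iic N)) (sig E (Set.Ioi N)) μ |>.1 hblock
  set F := (Ioc 0 M).powerset.filter fun b => (#b : ℝ) < Q with hF
  have hsub : {ω | (#(BB E M ω) : ℝ) < Q ∧ ω ∈ WW E ν s (BB E M ω)} ⊆ ⋃ b ∈ F, ({ω | BB E M ω = b} ∩ WW E ν s b) := by
    rintro ω ⟨h1, h2⟩
    rw [Set.mem_iUnion₂]
    refine ⟨BB E M ω, ?_, rfl, h2⟩
    rw [hF, mem_filter, mem_powerset]
    exact ⟨by rw [BB]; exact filter_subset _ _, h1⟩
  have hsmall : ∀ b ∈ F, μ.real (WW E ν s b) ≤ Real.exp (-(v / 3)) := by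
    intro b hb
    rw [hF, mem_filter, mem_powerset] at hb
    set G : ℕ → Finset ℕ := fun i => b.image fun m => ν i - m with hG
    have hGd : (s : Set ℕ).PairwiseDisjoint G := by
      intro i hi i' hi' hne
      rw [Function.onFun, Finset.disjoint_left]
      intro j hj hj'
      rw [hG, mem_image] at hj hj'
      obtain ⟨m, hm, rfl⟩ := hj
      obtain ⟨m', hm', h⟩ := hj'
      have a1 := mem_Ioc.1 (hb.1 hm)
      have a2 := mem_Ioc.1 (hb.1 hm')
      have a3 := hν i hi
      have a4 := hν i' hi'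
      rcases lt_or_gt_of_ne hne with h5 | h5
      · have := hν2 i hi i' hi' h5
        omega
      · have := hν2 i' hi' i hi h5
        omega
    have hprod : ∀ i ∈ s, ∏ j ∈ G i, μ.real ((E j)ᶜ) = ∏ m ∈ b, (1 - μ.real (E (ν i - m))) := by
      intro i hi
      rw [hG, Finset.prod_image]
      · exact Finset.prod_congr rfl fun m _ => real_compl (hE _)
      · intro m hm m' hm' h
        have a1 := mem_Ioc.1 (hb.1 (Finset.mem_coe.1 hm))
        have a2 := mem_Ioc.1 (hb.1 (Finset.mem_coe.1 hm'))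
        have a3 := hν i hi
        simp only at h
        omega
    have h4 := chern_low (μ := μ) (E := fun j => (E j)ᶜ) (fun j => (hE j).compl) (indep_compl hE hind) s G hGd hv0
      (by rw [Finset.sum_congr rfl hprod]; exact hv b hb.1 hb.2)
    refine le_trans (measureReal_mono ?_ (measure_ne_top μ _)) h4
    intro ω hω
    have hz : cnt (fun j => (E j)ᶜ) G s ω = 0 := by
      unfold cnt
      rw [Finset.card_eq_zero, Finset.filter_eq_empty_iff]
      intro i hi hcon
      rw [mem_Gr] at hcon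
      unfold WW at hω
      have h6 := Set.mem_iInter₂.1 hω i hi
      obtain ⟨m, hm, h7⟩ := Set.mem_iUnion₂.1 h6
      exact hcon (ν i - m) (mem_image_of_mem _ hm) h7
    simp only [Set.mem_ofPred_eq]
    rw [hz]
    push_cast
    positivity
  have hdisj : (F : Set (Finset ℕ)).PairwiseDisjoint (fun b => {ω | BB E M ω = b}) := by
    intro b _ b' _ hne
    rw [Function.onFun, Set.disjoint_left]
    intro ω h1 h2
    exact hne (h1.symm.trans h2)
  have hBm : ∀ b, MeasurableSet {ω | BB E M ω = b} := by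
    intro b
    have h1 := BB_meas (E := E) (S := Set.Iic N) (M := M) (fun m h1 h2 => hP m h1 h2) b
    have h2 : sig E (Set.Iic N) ≤ ‹MeasurableSpace Ω› := by
      refine MeasurableSpace.generateFrom_le ?_
      rintro t ⟨n, -, rfl⟩
      exact hE n
    exact h2 _ h1
  calc μ.real {ω | (#(BB E M ω) : ℝ) < Q ∧ ω ∈ WW E ν s (BB E M ω)}
      ≤ μ.real (⋃ b ∈ F, ({ω | BB E M ω = b} ∩ WW E ν s b)) := measureReal_mono hsub (measure_ne_top μ _)
    _ ≤ ∑ b ∈ F, μ.real ({ω | BB E M ω = b} ∩ WW E ν s b) := measureReal_biUnion_finset_le _ _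
    _ = ∑ b ∈ F, μ.real {ω | BB E M ω = b} * μ.real (WW E ν s b) := by
        refine Finset.sum_congr rfl fun b hb => ?_
        rw [hF, mem_filter, mem_powerset] at hb
        have h1 := BB_meas (E := E) (S := Set.Iic N) (M := M) (fun m h1 h2 => hP m h1 h2) b
        have h2 : MeasurableSet[sig E (Set.Ioi N)] (WW E ν s b) := by
          refine WW_meas fun i hi m hm => ?_
          have a1 := mem_Ioc.1 (hb.1 hm)
          have a3 := hν i hi
          rw [Set.mem_Ioi]
          omega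
        have h3 := hI _ _ h1 h2
        unfold Measure.real
        rw [h3, ENNReal.toReal_mul]
    _ ≤ ∑ b ∈ F, μ.real {ω | BB E M ω = b} * Real.exp (-(v / 3)) :=
        Finset.sum_le_sum fun b hb => mul_le_mul_of_nonneg_left (hsmall b hb) measureReal_nonneg
    _ = (∑ b ∈ F, μ.real {ω | BB E M ω = b}) * Real.exp (-(v / 3)) := by rw [Finset.sum_mul]
    _ = μ.real (⋃ b ∈ F, {ω | BB E M ω = b}) * Real.exp (-(v / 3)) := by
        rw [measureReal_biUnion_finset hdisj fun b _ => hBm b]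
    _ ≤ 1 * Real.exp (-(v / 3)) := mul_le_mul_of_nonneg_right measureReal_le_one (Real.exp_pos _).le
    _ = _ := one_mul _

/-- the number of the small `m` -/
lemma BB_card [IsProbabilityMeasure μ] {E : ℕ → Set Ω} (hE : ∀ j, MeasurableSet (E j)) (hind : iIndepSet E μ)
    {C : ℝ} (hC : 0 < C) (hup : ∀ j : ℕ, 1 ≤ j → μ.real (E j) ≤ C / Real.log ((j : ℝ) + 2)) :
    ∃ M₀ : ℕ, ∀ M : ℕ, M₀ ≤ M →
      μ.real {ω | 8 * (12 * (C ^ 2 + C) * (M / Real.log M ^ 2)) ≤ (#(BB E M ω) : ℝ)} ≤
      2 * Real.exp (-(2 * (12 * (C ^ 2 + C) * (M / Real.log M ^ 2)))) := by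
  classical
  obtain ⟨M₁, hM₁⟩ := sums_M hC
  refine ⟨M₁, fun M hM => ?_⟩
  obtain ⟨u1, u2⟩ := hM₁ M hM (fun j => μ.real (E j)) (fun j => measureReal_nonneg) hup
  set v := 12 * (C ^ 2 + C) * (M / Real.log M ^ 2) with hv
  set t1 := (Ioc 0 M).filter (fun m => Nat.primeCounting M < m) with ht1
  set t2 := (Ioc 0 M).filter (fun m => m ≤ Nat.primeCounting M) with ht2
  set G1 : ℕ → Finset ℕ := fun m => {m, P m} with hG1
  set G2' : ℕ → Finset ℕ := fun m => {m} with hG2
  have hne : ∀ m ∈ t1, m < P m ∧ M < P m ∧ 1 ≤ m ∧ m ≤ M := by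
    intro m hm
    rw [ht1, mem_filter, mem_Ioc] at hm
    have := lt_P hm.2
    omega
  have w1 := chern_up hE hind t1 G1 (by
    intro m hm m' hm' hne'
    rw [Function.onFun, Finset.disjoint_left]
    intro j hj hj'
    rw [hG1, mem_insert, mem_singleton] at hj hj'
    have a1 := hne m hm
    have a2 := hne m' hm'
    have d1 : P m ≠ P m' := fun h => hne' (P_inj a1.2.2.1 a2.2.2.1 h)
    rcases hj with rfl | rfl <;> rcases hj' with h | h <;> omega) (v := v) (by
    refine le_trans (le_of_eq ?_) u1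
    refine Finset.sum_congr rfl fun m hm => ?_
    rw [hG1, Finset.prod_pair (hne m hm).1.ne])
  have w2 := chern_up hE hind t2 G2' (by
    intro m hm m' hm' hne'
    rw [Function.onFun, Finset.disjoint_singleton]
    exact hne') (v := v) (by
    refine le_trans (le_of_eq ?_) u2
    refine Finset.sum_congr rfl fun m hm => ?_
    rw [hG2, Finset.prod_singleton])
  have hB : ∀ ω, #(BB E M ω) ≤ cnt E G1 t1 ω + cnt E G2' t2 ω := by
    intro ω
    unfold BB cnt
    refine le_trans (Finset.card_le_card ?_) (Finset.card_union_le _ _)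
    intro m hm
    rw [mem_filter, mem_Ioc] at hm
    obtain ⟨⟨h1, h2⟩, h4, h5⟩ := hm
    rw [mem_union]
    rcases Nat.lt_or_ge (Nat.primeCounting M) m with h6 | h6
    · left
      rw [mem_filter, ht1, mem_filter, mem_Ioc, mem_Gr]
      refine ⟨⟨⟨h1, h2⟩, h6⟩, fun j hj => ?_⟩
      rw [hG1, mem_insert, mem_singleton] at hj
      rcases hj with rfl | rfl <;> assumption
    · right
      rw [mem_filter, ht2, mem_filter, mem_Ioc, mem_Gr]
      refine ⟨⟨⟨h1, h2⟩, h6⟩, fun j hj => ?_⟩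
      rw [hG2, mem_singleton] at hj
      rw [hj]
      exact h4
  have hsub : {ω | 8 * v ≤ (#(BB E M ω) : ℝ)} ⊆ {ω | 4 * v ≤ (cnt E G1 t1 ω : ℝ)} ∪ {ω | 4 * v ≤ (cnt E G2' t2 ω : ℝ)} := by
    intro ω hω
    simp only [Set.mem_ofPred_eq, Set.mem_union] at hω ⊢
    by_contra hcon
    push Not at hcon
    have h5 : (#(BB E M ω) : ℝ) ≤ (cnt E G1 t1 ω : ℝ) + (cnt E G2' t2 ω : ℝ) := by exact_mod_cast hB ω
    linarith
  calc μ.real {ω | 8 * v ≤ (#(BB E M ω) : ℝ)} ≤ _ := measureReal_mono hsub (measure_ne_top μ _)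
    _ ≤ _ := measureReal_union_le _ _
    _ ≤ Real.exp (-(2 * v)) + Real.exp (-(2 * v)) := by linarith
    _ = 2 * Real.exp (-(2 * v)) := by ring

end Pool.Agent.T9h55.RM
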