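import Pool.Agent.T9h55.RM.Model
import Pool.Agent.H154R3.Task469B

/-! The random model: almost primes in windows of length `p ^ ε` (helper55). -/

set_option autoImplicit false

namespace Pool.Agent.T9h55.RM

open Finset MeasureTheory ProbabilityTheory Filter

/-- all prime factors of `n` are at least `q ^ η`, and there are at most `3 / η` of them, with multiplicity -/
def AP (η : ℝ) (q n : ℕ) : Prop :=
  (∀ l : ℕ, l.Prime → l ∣ n → (q : ℝ) ^ η ≤ l) ∧ (n.primeFactorsList.length : ℝ) ≤ 3 / η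

lemma len_le {q n : ℕ} {η : ℝ} (hq : 2 ≤ q) (hη : 0 < η) (hn0 : n ≠ 0) (hn : n ≤ 2 * q ^ 2)
    (h : ∀ l : ℕ, l.Prime → l ∣ n → (q : ℝ) ^ η ≤ l) : (n.primeFactorsList.length : ℝ) ≤ 3 / η := by
  have hqr : (2 : ℝ) ≤ q := by exact_mod_cast hq
  have hl0 : 0 < Real.log q := Real.log_pos (by linarith)
  have key : ∀ L : List ℕ, (∀ l ∈ L, (q : ℝ) ^ η ≤ l) → (L.length : ℝ) * (η * Real.log q) ≤ Real.log (L.prod : ℕ) := by
    intro L
    induction L with
    | nil => intro _; simp
    | cons a L ih =>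
      intro hL
      have h1 := ih fun l hl => hL l (List.mem_cons_of_mem _ hl)
      have h2 := hL a List.mem_cons_self
      have hpos : 0 < (q : ℝ) ^ η := Real.rpow_pos_of_pos (by linarith) _
      have h3 : η * Real.log q ≤ Real.log a := by
        rw [← Real.log_rpow (by linarith)]
        exact Real.log_le_log hpos h2
      have ha : (a : ℝ) ≠ 0 := (lt_of_lt_of_le hpos h2).ne'
      have hb : ((L.prod : ℕ) : ℝ) ≠ 0 := by
        have : (L.prod : ℕ) ≠ 0 := by
          rw [Ne, List.prod_eq_zero_iff]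
          intro h0
          have h4 := hL 0 (List.mem_cons_of_mem _ h0)
          simp only [Nat.cast_zero] at h4
          linarith
        exact_mod_cast this
      rw [List.prod_cons, List.length_cons, Nat.cast_mul, Real.log_mul ha hb, Nat.cast_add, Nat.cast_one]
      linarith
  have h1 := key n.primeFactorsList fun l hl => h l (Nat.prime_of_mem_primeFactorsList hl) (Nat.dvd_of_mem_primeFactorsList hl)
  rw [Nat.prod_primeFactorsList hn0] at h1
  have h2 : Real.log n ≤ 3 * Real.log q := by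
    have h3 : (n : ℝ) ≤ (q : ℝ) ^ 3 := by
      have : n ≤ q ^ 3 := hn.trans (by
        calc 2 * q ^ 2 ≤ q * q ^ 2 := Nat.mul_le_mul_right _ hq
          _ = q ^ 3 := by ring)
      exact_mod_cast this
    have h4 := Real.log_le_log (by
      have : 0 < n := by omega
      exact_mod_cast this) h3
    rw [Real.log_pow] at h4
    push_cast at h4
    exact h4
  rw [le_div_iff₀ hη]
  have h3 : (n.primeFactorsList.length : ℝ) * η * Real.log q ≤ 3 * Real.log q := by linarith
  exact le_of_mul_le_mul_right h3 hl0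

open Classical in
/-- lower bound for the sieve product -/
lemma V_lower (s : ℕ) (hs : 1 ≤ s) : ∀ᶠ z : ℕ in atTop, ∀ V : ℝ, 0 < V →
    (∀ A Y : ℕ, z ^ s ≤ Y → |(#((Ioc A (A + Y)).filter (fun n => ∀ p : ℕ, p.Prime → p < z → ¬ p ∣ n)) : ℝ) - V * Y| ≤
      (1 / 2) * V * Y) → 1 / (6 * (s + 1) * Real.log z) ≤ V := by
  filter_upwards [log_le_sqrt (ε := 1 / (8 * (s + 1))) (by positivity), eventually_ge_atTop 16] with z h1 h2 V hV hF
  have hzr : (16 : ℝ) ≤ z := by exact_mod_cast h2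
  have hlz : 0 < Real.log z := Real.log_pos (by linarith)
  set Y := z ^ (s + 1) with hY
  have hYs : z ^ s ≤ Y := Nat.pow_le_pow_right (by omega) (by omega)
  have hF1 := hF 0 Y hYs
  rw [zero_add] at hF1
  have hzY : z * z ≤ Y := by
    rw [hY, ← pow_two]
    exact Nat.pow_le_pow_right (by omega) (by omega)
  have hzYr : (z : ℝ) * z ≤ Y := by exact_mod_cast hzY
  have hYr : (256 : ℝ) ≤ Y := by nlinarith
  have hlY : Real.log Y = (s + 1) * Real.log z := by
    rw [hY]
    push_cast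
    rw [Real.log_pow]
    push_cast
    ring
  have hlY0 : 0 < Real.log Y := Real.log_pos (by linarith)
  -- the primes
  have hcard : Nat.primeCounting Y ≤ #((Ioc 0 Y).filter (fun n => ∀ p : ℕ, p.Prime → p < z → ¬ p ∣ n)) + z := by
    rw [← Nat.primesLE_card_eq_primeCounting]
    have hsub : Nat.primesLE Y ⊆ ((Ioc 0 Y).filter (fun n => ∀ p : ℕ, p.Prime → p < z → ¬ p ∣ n)) ∪ range z := by
      intro q hq
      rw [Nat.mem_primesLE] at hq
      rw [mem_union, mem_filter, mem_Ioc, mem_range]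
      rcases Nat.lt_or_ge q z with h | h
      · exact Or.inr h
      · left
        refine ⟨⟨hq.2.pos, hq.1⟩, fun p hp hpz hd => ?_⟩
        have := (Nat.prime_dvd_prime_iff_eq hp hq.2).1 hd
        omega
    refine (Finset.card_le_card hsub).trans ((Finset.card_union_le _ _).trans ?_)
    rw [card_range]
  have hpi := Chebyshev.pi_ge Y
  have hcr : (Nat.primeCounting Y : ℝ) ≤ (#((Ioc 0 Y).filter (fun n => ∀ p : ℕ, p.Prime → p < z → ¬ p ∣ n)) : ℝ) + z := by
    exact_mod_cast hcard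
  have h3 : Real.log ((Y : ℝ) + 1) ≤ Real.log Y + 1 := by
    rw [show (Y : ℝ) + 1 = Y * (1 + 1 / Y) by field_simp, Real.log_mul (by linarith) (by positivity)]
    have := Real.log_le_sub_one_of_pos (x := 1 + 1 / (Y : ℝ)) (by positivity)
    have h4 : (1 : ℝ) / Y ≤ 1 := by
      rw [div_le_one (by linarith)]
      linarith
    linarith
  have hl2 := Real.log_two_gt_d9
  have hlogY : Real.log Y ≤ Real.sqrt z / 8 := by
    rw [hlY]
    have h4 : ((s : ℝ) + 1) * Real.log z ≤ (s + 1) * (1 / (8 * (s + 1)) * Real.sqrt z) := by gcongr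
    refine h4.trans (le_of_eq ?_)
    field_simp
  have hsz : Real.sqrt z * Real.sqrt z = z := Real.mul_self_sqrt (by linarith)
  have hs4 : (4 : ℝ) ≤ Real.sqrt z := by
    rw [show (4 : ℝ) = Real.sqrt 16 by rw [show (16 : ℝ) = 4 ^ 2 by norm_num, Real.sqrt_sq (by norm_num)]]
    exact Real.sqrt_le_sqrt hzr
  have hsz2 : Real.sqrt z ≤ z := by nlinarith
  -- `π(Y) - z ≥ Y / (4 log Y)`
  have h5 : (Y : ℝ) / (4 * Real.log Y) ≤ Nat.primeCounting Y - z := by
    have h6 : (Y : ℝ) / (4 * Real.log Y) + z ≤ (Y * Real.log 2 - Real.log (Y + 1)) / Real.log Y := by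
      rw [le_div_iff₀ hlY0, add_mul]
      have h7 : (Y : ℝ) / (4 * Real.log Y) * Real.log Y = Y / 4 := by field_simp
      rw [h7]
      have h8 : (z : ℝ) * Real.log Y ≤ Y / 8 := by
        calc (z : ℝ) * Real.log Y ≤ z * (Real.sqrt z / 8) := by gcongr
          _ ≤ z * (z / 8) := by gcongr
          _ ≤ Y / 8 := by linarith
      have h9 : Real.log Y ≤ Y / 16 := by
        have : (z : ℝ) ≤ Y / 2 := by nlinarith
        have : Real.sqrt z / 8 ≤ Y / 16 := by linarith
        linarith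
      nlinarith
    linarith
  have h10 := (abs_le.1 hF1).2
  have h11 : (Y : ℝ) / (4 * Real.log Y) ≤ 3 / 2 * V * Y := by linarith
  have h12 : 1 / (4 * Real.log Y) ≤ 3 / 2 * V := by
    have h13 : (Y : ℝ) * (1 / (4 * Real.log Y)) ≤ Y * (3 / 2 * V) := by
      calc (Y : ℝ) * (1 / (4 * Real.log Y)) = Y / (4 * Real.log Y) := by ring
        _ ≤ 3 / 2 * V * Y := h11
        _ = _ := by ring
    exact le_of_mul_le_mul_left h13 (by linarith)
  calc 1 / (6 * ((s : ℝ) + 1) * Real.log z) = 2 / 3 * (1 / (4 * Real.log Y)) := by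
        rw [hlY]
        field_simp
        norm_num
    _ ≤ 2 / 3 * (3 / 2 * V) := by gcongr
    _ = V := by ring

open Classical in
/-- almost primes in a window -/
lemma window_rough {ε : ℝ} (hε : 0 < ε) : ∃ η c C : ℝ, 0 < η ∧ 0 < c ∧ 0 < C ∧
    (∀ᶠ j : ℕ in atTop, ∀ H : ℕ, (P j : ℝ) ^ ε ≤ H → (H : ℝ) ≤ (P j : ℝ) ^ 2 →
      c / Real.log ((j : ℝ) + 2) ≤ (#((range H).filter fun h => AP η (P j) (P j ^ 2 - 2 + h)) : ℝ) / H ∧
      (#((range H).filter fun h => AP η (P j) (P j ^ 2 - 2 + h)) : ℝ) / H ≤ C / Real.log ((j : ℝ) + 2)) := by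
  obtain ⟨s, hs1, _, z₀, hz₀, hFL⟩ := Pool.Agent.H154R3.Fund.fundLemma (1 / 2) (by norm_num)
  have hs1r : (1 : ℝ) ≤ s := by exact_mod_cast hs1
  set η := ε / (2 * s) with hη
  have hη0 : 0 < η := by positivity
  refine ⟨η, 1 / (96 * (s + 1) * η), 6 / η, hη0, by positivity, by positivity, ?_⟩
  obtain ⟨z₁, hz₁⟩ := eventually_atTop.1 (V_lower s hs1)
  have hPt : Tendsto (fun j : ℕ => (P j : ℝ)) atTop atTop := by
    refine tendsto_atTop_mono' atTop ?_ tendsto_natCast_atTop_atTop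
    filter_upwards [eventually_ge_atTop 1] with j hj
    have := le_P hj
    have : j ≤ P j := by omega
    exact_mod_cast this
  have hpow : Tendsto (fun j : ℕ => (P j : ℝ) ^ η) atTop atTop := (tendsto_rpow_atTop hη0).comp hPt
  filter_upwards [P_le_sq, hpow.eventually_ge_atTop (z₀ + z₁ + 4), eventually_ge_atTop 10] with j hj1 hj2 hj3 H hH1 hH2
  have hP := le_P (m := j) (by omega)
  set q := P j with hq
  have hq10 : 10 ≤ q := by omega
  have hqr : (10 : ℝ) ≤ q := by exact_mod_cast hq10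
  have hlq : 0 < Real.log q := Real.log_pos (by linarith)
  set z := ⌈(q : ℝ) ^ η⌉₊ with hz
  have hqη0 : 0 < (q : ℝ) ^ η := Real.rpow_pos_of_pos (by linarith) _
  have hzlo : (q : ℝ) ^ η ≤ z := Nat.le_ceil _
  have hzhi : (z : ℝ) < (q : ℝ) ^ η + 1 := Nat.ceil_lt_add_one hqη0.le
  have hz0r : (0 : ℝ) ≤ z₀ := Nat.cast_nonneg _
  have hz1r : (0 : ℝ) ≤ z₁ := Nat.cast_nonneg _
  have hzz0 : z₀ ≤ z := by
    have : (z₀ : ℝ) ≤ z := by linarith
    exact_mod_cast this
  have hzz1 : z₁ ≤ z := by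
    have : (z₁ : ℝ) ≤ z := by linarith
    exact_mod_cast this
  have hz4 : (4 : ℝ) ≤ z := by linarith
  obtain ⟨V, hV0, hV1, hV2⟩ := hFL z hzz0
  have hF : ∀ A Y : ℕ, z ^ s ≤ Y → |(#((Ioc A (A + Y)).filter (fun n => ∀ p : ℕ, p.Prime → p < z → ¬ p ∣ n)) : ℝ) - V * Y| ≤
      (1 / 2) * V * Y := by
    intro A Y hY
    have h1 := hV2 A Y hY
    refine le_trans h1 ?_
    · have h2 : (1 : ℝ) / 2 / (s : ℝ) ^ 8 ≤ 1 / 2 := by
        rw [div_le_iff₀ (by positivity)]
        have : (1 : ℝ) ≤ (s : ℝ) ^ 8 := one_le_pow₀ hs1r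
        linarith
      have h3 : 0 ≤ V * (Y : ℝ) := by positivity
      calc (1 : ℝ) / 2 / (s : ℝ) ^ 8 * V * Y = (1 : ℝ) / 2 / (s : ℝ) ^ 8 * (V * Y) := by ring
        _ ≤ 1 / 2 * (V * Y) := mul_le_mul_of_nonneg_right h2 h3
        _ = _ := by ring
  have hVlo := hz₁ z hzz1 V hV0 (fun A Y h => hF A Y h)
  -- `z ^ s ≤ H`
  have hzq : (z : ℝ) ≤ (q : ℝ) ^ (2 * η) := by
    have h1 : (q : ℝ) ^ (2 * η) = (q : ℝ) ^ η * (q : ℝ) ^ η := by
      rw [← Real.rpow_add (by linarith)]
      ring_nf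
    rw [h1]
    nlinarith
  have hzH : z ^ s ≤ H := by
    have h1 : ((z : ℝ)) ^ s ≤ H := by
      calc ((z : ℝ)) ^ s ≤ ((q : ℝ) ^ (2 * η)) ^ s := by gcongr
        _ = (q : ℝ) ^ ε := by
          rw [← Real.rpow_natCast, ← Real.rpow_mul (by linarith)]
          congr 1
          rw [hη]
          field_simp
        _ ≤ H := hH1
    exact_mod_cast h1
  have hH0 : (0 : ℝ) < H := lt_of_lt_of_le (Real.rpow_pos_of_pos (by linarith) _) hH1
  set a := q ^ 2 - 2 with ha
  have hqq : q * 10 ≤ q * q := Nat.mul_le_mul_left q hq10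
  have hq2 : 100 ≤ q ^ 2 := by nlinarith
  have ha3 : a + 2 = q ^ 2 := by omega
  have ha1 : 98 ≤ a := by omega
  have hHq : H ≤ q ^ 2 := by exact_mod_cast hH2
  -- the count
  have hcount : #((range H).filter fun h => AP η q (a + h)) =
      #((Ioc (a - 1) (a - 1 + H)).filter (fun n => ∀ p : ℕ, p.Prime → p < z → ¬ p ∣ n)) := by
    apply Finset.card_bij (fun h _ => a + h)
    · intro h hh
      rw [mem_filter, mem_range] at hh
      rw [mem_filter, mem_Ioc]
      refine ⟨by omega, fun p hp hpz hd => ?_⟩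
      have h1 := hh.2.1 p hp hd
      have h2 : z ≤ p := Nat.ceil_le.2 h1
      omega
    · intro h _ h' _ he
      omega
    · intro n hn
      rw [mem_filter, mem_Ioc] at hn
      refine ⟨n - a, ?_, by omega⟩
      rw [mem_filter, mem_range]
      have e : a + (n - a) = n := by omega
      rw [e]
      have h1 : ∀ l : ℕ, l.Prime → l ∣ n → (q : ℝ) ^ η ≤ l := by
        intro l hl hd
        have h2 : ¬ l < z := fun h => hn.2 l hl h hd
        push Not at h2
        calc (q : ℝ) ^ η ≤ z := hzlo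
          _ ≤ l := by exact_mod_cast h2
      exact ⟨by omega, h1, len_le (by omega) hη0 (by omega) (by omega) h1⟩
  have hmain := hF (a - 1) H hzH
  have hconv : (#((Ioc (a - 1) (a - 1 + H)).filter (fun n => ∀ p : ℕ, p.Prime → p < z → ¬ p ∣ n)) : ℝ) =
      (#((range H).filter fun h => AP η q (a + h)) : ℝ) := by
    rw [hcount]
  rw [hconv] at hmain
  obtain ⟨m1, m2⟩ := abs_le.1 hmain
  have hlj := log_ge_one (i := j) (by omega)
  have hlz : 0 < Real.log z := Real.log_pos (by linarith)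
  have hlz1 : η * Real.log q ≤ Real.log z := by
    rw [← Real.log_rpow (by linarith)]
    exact Real.log_le_log hqη0 hzlo
  have hlz2 : Real.log z ≤ 2 * η * Real.log q := by
    rw [← Real.log_rpow (by linarith)]
    exact Real.log_le_log (by linarith) hzq
  have hlj2 : Real.log ((j : ℝ) + 2) ≤ Real.log q * 2 := by
    have h4 : ((j : ℝ) + 2) ≤ (q : ℝ) ^ 2 := by
      have : j + 2 ≤ q ^ 2 := by nlinarith
      exact_mod_cast this
    have h5 := Real.log_le_log (by positivity) h4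
    rw [Real.log_pow] at h5
    push_cast at h5
    linarith
  have hlj3 : Real.log q ≤ 2 * Real.log ((j : ℝ) + 2) := by
    have h4 : (q : ℝ) ≤ ((j : ℝ) + 2) ^ 2 := by
      have : q ≤ (j + 2) ^ 2 := hj1.trans (Nat.pow_le_pow_left (by omega) 2)
      exact_mod_cast this
    have h5 := Real.log_le_log (by linarith) h4
    rw [Real.log_pow] at h5
    push_cast at h5
    exact h5
  constructor
  · rw [le_div_iff₀ hH0]
    have h1 : 1 / (48 * (s + 1) * η) / Real.log ((j : ℝ) + 2) ≤ V / 1 := by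
      rw [div_one]
      refine le_trans ?_ hVlo
      rw [div_div]
      apply one_div_le_one_div_of_le (by positivity)
      calc 6 * ((s : ℝ) + 1) * Real.log z ≤ 6 * (s + 1) * (2 * η * Real.log q) := by gcongr
        _ ≤ 6 * (s + 1) * (2 * η * (2 * Real.log ((j : ℝ) + 2))) := by gcongr
        _ ≤ 48 * (s + 1) * η * Real.log ((j : ℝ) + 2) := by
            have : 0 < (s + 1) * η * Real.log ((j : ℝ) + 2) := by positivity
            nlinarith
    rw [div_one] at h1
    have h2 : 1 / (96 * (s + 1) * η) / Real.log ((j : ℝ) + 2) = 1 / 2 * (1 / (48 * (s + 1) * η) / Real.log ((j : ℝ) + 2)) := by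
      field_simp
      norm_num
    rw [h2]
    have h3 : 1 / 2 * (1 / (48 * (s + 1) * η) / Real.log ((j : ℝ) + 2)) * H ≤ 1 / 2 * V * H := by gcongr
    linarith
  · rw [div_le_iff₀ hH0]
    have h1 : V ≤ 4 / η / Real.log ((j : ℝ) + 2) := by
      refine hV1.trans ?_
      rw [div_div, div_le_div_iff₀ hlz (by positivity)]
      nlinarith
    have h2 : 6 / η / Real.log ((j : ℝ) + 2) = 3 / 2 * (4 / η / Real.log ((j : ℝ) + 2)) := by ring
    rw [h2]
    have h3 : 3 / 2 * V * H ≤ 3 / 2 * (4 / η / Real.log ((j : ℝ) + 2)) * H := by gcongr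
    linarith

end Pool.Agent.T9h55.RM
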