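import Pool.Agent.T9h55.RM.Rough

/-! The random model: hypotheses of the laws for almost primes (helper55). -/

set_option autoImplicit false

namespace Pool.Agent.T9h55.RM

open Finset MeasureTheory ProbabilityTheory Filter

theorem rough_hyp {ε : ℝ} (hε : 0 < ε) : ∃ η c C : ℝ, 0 < η ∧ 0 < c ∧ 0 < C ∧
    ∀ {Ω : Type*} [MeasurableSpace Ω] (μ : Measure Ω) [IsProbabilityMeasure μ] (H : ℕ → ℕ) (ξ : ℕ → Ω → ℕ),
      (∀ j, 1 ≤ j → (P j : ℝ) ^ ε ≤ H j ∧ (H j : ℝ) ≤ (P j : ℝ) ^ 2) →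
      (∀ j, Measurable (ξ j)) → iIndepFun ξ μ → (∀ j, 1 ≤ j → ∀ h < H j, μ.real {ω | ξ j ω = h} = 1 / (H j : ℝ)) →
      (∀ j, MeasurableSet {ω | AP η (P j) (P j ^ 2 - 2 + ξ j ω)}) ∧ iIndepSet (fun j => {ω | AP η (P j) (P j ^ 2 - 2 + ξ j ω)}) μ ∧
      (∀ᶠ j : ℕ in atTop, c / Real.log ((j : ℝ) + 2) ≤ μ.real {ω | AP η (P j) (P j ^ 2 - 2 + ξ j ω)}) ∧
      (∀ j : ℕ, 1 ≤ j → μ.real {ω | AP η (P j) (P j ^ 2 - 2 + ξ j ω)} ≤ C / Real.log ((j : ℝ) + 2)) := by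
  classical
  obtain ⟨η, c, C, hη, hc, hC, hw⟩ := window_rough hε
  obtain ⟨J, hJ⟩ := eventually_atTop.1 hw
  refine ⟨η, c, C + Real.log ((J : ℝ) + 2), hη, hc, by
    have : 0 ≤ Real.log ((J : ℝ) + 2) := Real.log_nonneg (by have : (0 : ℝ) ≤ J := Nat.cast_nonneg _; linarith)
    linarith, ?_⟩
  intro Ω _ μ _ H ξ hH hm hind hunif
  obtain ⟨h1, h2⟩ := indep_sets (μ := μ) hm hind (fun j x => AP η (P j) (P j ^ 2 - 2 + x))
  have hH1 : ∀ j, 1 ≤ j → 1 ≤ H j := by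
    intro j hj
    have h5 := (hH j hj).1
    have h6 : (0 : ℝ) < (P j : ℝ) ^ ε := Real.rpow_pos_of_pos (by exact_mod_cast (P_prime j).pos) _
    have h7 : (0 : ℝ) < H j := lt_of_lt_of_le h6 h5
    exact_mod_cast h7
  have hprob : ∀ j, 1 ≤ j → μ.real {ω | AP η (P j) (P j ^ 2 - 2 + ξ j ω)} =
      (#((range (H j)).filter fun h => AP η (P j) (P j ^ 2 - 2 + h)) : ℝ) / H j := by
    intro j hj
    rw [prob_unif (μ := μ) (hm j) (hH1 j hj) (hunif j hj) (fun x => AP η (P j) (P j ^ 2 - 2 + x))]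
  have hlJ : 0 ≤ Real.log ((J : ℝ) + 2) := Real.log_nonneg (by have : (0 : ℝ) ≤ J := Nat.cast_nonneg _; linarith)
  refine ⟨h1, h2, ?_, ?_⟩
  · filter_upwards [hw, eventually_ge_atTop 1] with j hj hj1
    rw [hprob j hj1]
    exact (hj (H j) (hH j hj1).1 (hH j hj1).2).1
  · intro j hj
    have hlj := log_ge_one hj
    rcases Nat.lt_or_ge j J with h | h
    · rw [le_div_iff₀ (by linarith)]
      have h3 : μ.real {ω | AP η (P j) (P j ^ 2 - 2 + ξ j ω)} ≤ 1 := measureReal_le_one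
      have h4 : Real.log ((j : ℝ) + 2) ≤ Real.log ((J : ℝ) + 2) := by
        apply Real.log_le_log (by positivity)
        have : (j : ℝ) ≤ J := by exact_mod_cast h.le
        linarith
      have h5 : μ.real {ω | AP η (P j) (P j ^ 2 - 2 + ξ j ω)} * Real.log ((j : ℝ) + 2) ≤ 1 * Real.log ((j : ℝ) + 2) :=
        mul_le_mul_of_nonneg_right h3 (by linarith)
      linarith
    · rw [hprob j hj]
      refine (hJ j h (H j) (hH j hj).1 (hH j hj).2).2.trans ?_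
      apply div_le_div_of_nonneg_right _ (by linarith)
      linarith

end Pool.Agent.T9h55.RM
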